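import Mathlib

set_option autoImplicit false

/-!
# A resultant: two roots of unity of odd order do not differ by an integer
-/

namespace Pool.Agent.U671.BT

open Polynomial Finset

/-- `x + x ^ 2 + ... + x ^ m` -/
noncomputable def pol (R : Type*) [CommRing R] (m : ℕ) : R[X] := ∑ l ∈ range m, X ^ (l + 1)

theorem pol_map {R S : Type*} [CommRing R] [CommRing S] (φ : R →+* S) (m : ℕ) :
    (pol R m).map φ = pol S m := by
  simp [pol, Polynomial.map_sum]

theorem pol_natDegree_le (R : Type*) [CommRing R] (m : ℕ) : (pol R m).natDegree ≤ m := by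
  refine natDegree_sum_le_of_forall_le _ _ fun i hi => ?_
  rw [mem_range] at hi
  exact (natDegree_X_pow_le _).trans (by omega)

theorem pol_natDegree (R : Type*) [CommRing R] [Nontrivial R] (m : ℕ) :
    (pol R m).natDegree = m := by
  rcases m with _ | m
  · simp [pol]
  · have h : pol R (m + 1) = X ^ (m + 1) + pol R m := by
      rw [pol, pol, sum_range_succ, add_comm]
    rw [h, natDegree_add_eq_left_of_natDegree_lt, natDegree_X_pow]
    rw [natDegree_X_pow]
    exact lt_of_le_of_lt (pol_natDegree_le R m) (Nat.lt_succ_self m)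

/-- `x` is a root -/
def Rt {R : Type*} [CommRing R] (m : ℕ) (x : R) : Prop := ∑ l ∈ range m, x ^ (l + 1) = 0

theorem eval_pol {R : Type*} [CommRing R] (m : ℕ) (x : R) :
    (pol R m).eval x = ∑ l ∈ range m, x ^ (l + 1) := by
  simp [pol, eval_finsetSum]

/-- the resultant -/
noncomputable def PP (m : ℕ) : ℤ[X] :=
  resultant (pol ℤ[X] m) ((pol ℤ[X] m).comp (X + C X)) m m

theorem PP_map {S : Type*} [CommRing S] (m : ℕ) (d : ℤ) :
    (((PP m).eval d : ℤ) : S) =
      resultant (pol S m) ((pol S m).comp (X + C (d : S))) m m := by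
  have h := resultant_map_map (pol ℤ[X] m) ((pol ℤ[X] m).comp (X + C X)) m m
    ((Int.castRingHom S).comp (evalRingHom d))
  rw [pol_map, Polynomial.map_comp, pol_map] at h
  rw [PP]
  have h2 : ((X : ℤ[X][X]) + C X).map ((Int.castRingHom S).comp (evalRingHom d)) =
      X + C (d : S) := by
    simp
  rw [h2] at h
  rw [h]
  simp

theorem PP_dvd {q m : ℕ} (hm : m ≠ 0) (d : ℤ) (x : ZMod q) (h1 : Rt m x)
    (h2 : Rt m (x + (d : ZMod q))) : (q : ℤ) ∣ (PP m).eval d := by
  rw [← ZMod.intCast_zmod_eq_zero_iff_dvd]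
  rw [PP_map]
  obtain ⟨a, b, -, -, h⟩ := exists_mul_add_mul_eq_C_resultant (m := m) (n := m) (pol (ZMod q) m)
    ((pol (ZMod q) m).comp (X + C (d : ZMod q))) (pol_natDegree_le _ _) (by
      rw [← taylor_apply, natDegree_taylor]
      exact pol_natDegree_le _ _) (Or.inl hm)
  have h3 := congrArg (eval x) h
  rw [eval_C, eval_add, eval_mul, eval_mul, eval_comp, eval_pol, eval_pol] at h3
  simp only [eval_add, eval_X, eval_C] at h3
  unfold Rt at h1 h2
  rw [h1, h2] at h3
  rw [← h3]
  ring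

theorem rt_complex {m : ℕ} (hm : Odd m) {y : ℂ} (h : Rt m y) : y = 0 ∨ (y ^ m = 1 ∧ y ≠ 1) := by
  unfold Rt at h
  by_cases hy : y = 0
  · exact Or.inl hy
  right
  have h1 : ∑ l ∈ range m, y ^ (l + 1) = y * ∑ l ∈ range m, y ^ l := by
    rw [mul_sum]
    exact sum_congr rfl fun l _ => by ring
  rw [h1] at h
  have h2 : ∑ l ∈ range m, y ^ l = 0 := (mul_eq_zero.1 h).resolve_left hy
  have h3 := geom_sum_mul y m
  rw [h2, zero_mul] at h3
  refine ⟨(sub_eq_zero.1 h3.symm), ?_⟩
  rintro rfl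
  simp only [one_pow, sum_const, card_range, mul_one, nsmul_eq_mul] at h2
  obtain ⟨k, rfl⟩ := hm
  have : ((2 * k + 1 : ℕ) : ℂ) ≠ 0 := Nat.cast_ne_zero.2 (by omega)
  exact this h2

theorem no_common {m : ℕ} (hm : Odd m) {d : ℤ} (hd : d ≠ 0) {y : ℂ} (h1 : Rt m y)
    (h2 : Rt m (y + (d : ℂ))) : False := by
  have hm0 : m ≠ 0 := by
    rintro rfl
    simp at hm
  have hint : ∀ e : ℤ, e ≠ 0 → ¬ ((e : ℂ) ^ m = 1 ∧ (e : ℂ) ≠ 1) := by
    rintro e he ⟨h3, h4⟩
    have h5 : e ^ m = 1 := by exact_mod_cast h3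
    have h6 : e = 1 := by
      rcases Int.isUnit_iff.1 (IsUnit.of_pow_eq_one h5 hm0) with h | h
      · exact h
      · rw [h, hm.neg_one_pow] at h5
        norm_num at h5
    apply h4
    rw [h6]
    norm_num
  rcases rt_complex hm h1 with h | ⟨h3, h4⟩
  · rw [h, zero_add] at h2
    rcases rt_complex hm h2 with h5 | h5
    · exact hd (by exact_mod_cast h5)
    · exact hint d hd h5
  rcases rt_complex hm h2 with h | ⟨h5, h6⟩
  · have h7 : y = ((-d : ℤ) : ℂ) := by
      push_cast
      linear_combination h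
    rw [h7] at h3 h4
    exact hint (-d) (by omega) ⟨h3, h4⟩
  have n1 : Complex.normSq y = 1 := by
    rw [Complex.normSq_eq_norm_sq, Complex.norm_eq_one_of_pow_eq_one h3 hm0]
    norm_num
  have n2 : Complex.normSq (y + (d : ℂ)) = 1 := by
    rw [Complex.normSq_eq_norm_sq, Complex.norm_eq_one_of_pow_eq_one h5 hm0]
    norm_num
  rw [Complex.normSq_apply] at n1 n2
  simp only [Complex.add_re, Complex.add_im, Complex.intCast_re, Complex.intCast_im,
    add_zero] at n2
  have hdr : (d : ℝ) ≠ 0 := by exact_mod_cast hd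
  have h7 : 2 * y.re = -(d : ℝ) := by
    have : (d : ℝ) * (2 * y.re + d) = 0 := by nlinarith
    rcases mul_eq_zero.1 this with h | h
    · exact absurd h hdr
    · linarith
  have h8 : (d : ℝ) ^ 2 ≤ 4 := by nlinarith [mul_self_nonneg y.im]
  have h9 : d ^ 2 ≤ 4 := by exact_mod_cast h8
  have h10 : -2 ≤ d := by nlinarith
  have h11 : d ≤ 2 := by nlinarith
  have himp : ∀ s : ℝ, y.re = s → s * s = 1 → y.im = 0 := by
    intro s hs hs1
    have : y.im * y.im = 0 := by
      rw [hs] at n1
      linarith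
    exact mul_self_eq_zero.1 this
  have hcases : d = -2 ∨ d = -1 ∨ d = 1 ∨ d = 2 := by omega
  rcases hcases with rfl | rfl | rfl | rfl
  · have hr : y.re = 1 := by push_cast at h7; linarith
    apply h4
    apply Complex.ext
    · simpa using hr
    · simpa using himp 1 hr (by norm_num)
  · have hr : y.re = 1 / 2 := by push_cast at h7; linarith
    have hq : y ^ 3 = -1 := by
      have hi : y.im * y.im = 3 / 4 := by rw [hr] at n1; linarith
      have hy2 : y * y = y - 1 := by
        apply Complex.ext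
        · simp only [Complex.mul_re, Complex.sub_re, Complex.one_re]
          rw [hr]; linarith
        · simp only [Complex.mul_im, Complex.sub_im, Complex.one_im]
          rw [hr]; ring
      linear_combination (y + 1) * hy2
    have h12 : (y ^ 3) ^ m = 1 := by
      rw [← pow_mul, mul_comm, pow_mul, h3, one_pow]
    rw [hq, hm.neg_one_pow] at h12
    norm_num at h12
  · have hr : y.re = -(1 / 2) := by push_cast at h7; linarith
    have hq : y + ((1 : ℤ) : ℂ) = -(y * y) := by
      have hi : y.im * y.im = 3 / 4 := by rw [hr] at n1; linarith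
      apply Complex.ext
      · simp only [Complex.mul_re, Complex.add_re, Complex.neg_re, Complex.intCast_re]
        rw [hr]; push_cast; linarith
      · simp only [Complex.mul_im, Complex.add_im, Complex.neg_im, Complex.intCast_im]
        rw [hr]; ring
    rw [hq, hm.neg_pow, mul_pow, h3] at h5
    norm_num at h5
  · have hr : y.re = -1 := by push_cast at h7; linarith
    have hi := himp (-1) hr (by norm_num)
    have hy : y = -1 := by
      apply Complex.ext
      · simpa using hr
      · simpa using hi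
    rw [hy, hm.neg_one_pow] at h3
    norm_num at h3

theorem PP_ne {m : ℕ} (hm : Odd m) {d : ℤ} (hd : d ≠ 0) : (PP m).eval d ≠ 0 := by
  intro h0
  have h := PP_map (S := ℂ) m d
  rw [h0, Int.cast_zero] at h
  have h1 : (pol ℂ m).natDegree = m := pol_natDegree ℂ m
  have h2 : ((pol ℂ m).comp (X + C (d : ℂ))).natDegree = m := by
    rw [← taylor_apply, natDegree_taylor, h1]
  have h3 := resultant_ne_zero (pol ℂ m) ((pol ℂ m).comp (X + C (d : ℂ))) (by
    rw [Polynomial.isCoprime_iff_aeval_ne_zero_of_isAlgClosed (k := ℂ) (K := ℂ)]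
    intro y
    by_contra hcon
    push Not at hcon
    obtain ⟨h4, h5⟩ := hcon
    rw [coe_aeval_eq_eval] at h4 h5
    rw [eval_comp, eval_add, eval_X, eval_C, eval_pol] at h5
    rw [eval_pol] at h4
    exact no_common hm hd h4 h5)
  rw [h1, h2] at h3
  exact h3 h.symm

theorem size (P : ℤ[X]) : ∃ A : ℕ, 1 ≤ A ∧ ∀ d : ℤ, (P.eval d).natAbs ≤ A * (1 + d.natAbs) ^ A := by
  set B : ℕ := ∑ i ∈ range (P.natDegree + 1), (P.coeff i).natAbs with hB
  refine ⟨B + P.natDegree + 1, by omega, fun d => ?_⟩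
  rw [eval_eq_sum_range]
  refine (Int.natAbs_sum_le _ _).trans ?_
  have h1 : ∀ i ∈ range (P.natDegree + 1), (P.coeff i * d ^ i).natAbs ≤
      (P.coeff i).natAbs * (1 + d.natAbs) ^ (B + P.natDegree + 1) := by
    intro i hi
    rw [mem_range] at hi
    rw [Int.natAbs_mul, Int.natAbs_pow]
    apply Nat.mul_le_mul_left
    calc d.natAbs ^ i ≤ (1 + d.natAbs) ^ i := Nat.pow_le_pow_left (by omega) i
      _ ≤ (1 + d.natAbs) ^ (B + P.natDegree + 1) := Nat.pow_le_pow_right (by omega) (by omega)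
  refine (sum_le_sum h1).trans ?_
  rw [← sum_mul]
  apply Nat.mul_le_mul_right
  omega

theorem exists_F (m : ℕ) (hm : Odd m) : ∃ (F : ℤ → ℤ) (A : ℕ), 1 ≤ A ∧ (∀ d : ℤ, d ≠ 0 → F d ≠ 0) ∧
    (∀ d : ℤ, (F d).natAbs ≤ A * (1 + d.natAbs) ^ A) ∧
    ∀ (q : ℕ) (x : ZMod q) (d : ℤ), Rt m x → Rt m (x + (d : ZMod q)) → (q : ℤ) ∣ F d := by
  obtain ⟨A, hA, h⟩ := size (PP m)
  refine ⟨fun d => (PP m).eval d, A, hA, fun d hd => PP_ne hm hd, h, fun q x d h1 h2 =>
    PP_dvd ?_ d x h1 h2⟩
  rintro rfl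
  simp at hm

end Pool.Agent.U671.BT
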