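import Pool.Agent.U671.BT.Three
import Pool.Agent.U671.BT.Res
import Pool.Agent.Y346.SG.OCM

set_option autoImplicit false

/-!
# Orders of difference sets with Singer parameters: tuples in intervals
-/

namespace Pool.Agent.U671.BT

open Finset
open Pool.Agent.W114.PQ (Dat Pass Dk S_SV datS)
open Pool.Agent.H951R4.OD (ch PI Ex d3_log)
open Pool.Agent.Y346.SG
open Pool.Agent.Y346.SG.DS (datG)
open Pool.Agent.H771R2.SingerDS
open scoped Classical

/-- an order -/
def IsOrd (K n : ℕ) : Prop := 2 ≤ n ∧ ∃ m : ℕ, Odd m ∧ 3 ≤ m ∧ m.minFac ≤ K ∧ HasSinger n m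

/-- the odd primes up to `K` -/
noncomputable def OP (K : ℕ) : Finset ℕ := (range (K + 1)).filter (fun L => L.Prime ∧ 3 ≤ L)

theorem mem_OP {K L : ℕ} (h : L ∈ OP K) : L.Prime ∧ 3 ≤ L ∧ Odd L := by
  unfold OP at h
  rw [mem_filter] at h
  exact ⟨h.2.1, h.2.2, h.2.1.odd_of_ne_two (by omega)⟩

/-- the product of the odd primes up to `K` -/
noncomputable def Lam (K : ℕ) : ℕ := ∏ L ∈ OP K, L

theorem odd_Lam (K : ℕ) : Odd (Lam K) := by
  unfold Lam
  apply Finset.prod_induction (fun L => L) Odd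
  · intro a b ha hb
    exact ha.mul hb
  · exact odd_one
  · intro L hL
    exact (mem_OP hL).2.2

theorem rt_zero {q m : ℕ} {x : ℕ} (h : q ∣ x) : Rt m (x : ZMod q) := by
  have h0 : (x : ZMod q) = 0 := (ZMod.natCast_eq_zero_iff x q).2 h
  unfold Rt
  rw [h0]
  apply Finset.sum_eq_zero
  intro l _
  exact zero_pow (by omega)

theorem rt_T {q m L : ℕ} (hq : q.Prime) {x : ℕ} (hL : L ∣ m) (h : (datG L 0).T q x) :
    Rt m (x : ZMod q) := by
  have := Fact.mk hq
  obtain ⟨d, h1, h2, h3⟩ := h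
  have h4 : (x : ZMod q) ^ m = 1 := by
    rw [← orderOf_dvd_iff_pow_eq_one, h3]
    exact h2.trans hL
  have h5 : (x : ZMod q) ≠ 1 := by
    intro h6
    rw [h6, orderOf_one] at h3
    omega
  unfold Rt
  have h6 : ∑ l ∈ range m, (x : ZMod q) ^ (l + 1) =
      (x : ZMod q) * ∑ l ∈ range m, (x : ZMod q) ^ l := by
    rw [mul_sum]
    exact sum_congr rfl fun l _ => by ring
  have h7 := geom_sum_mul (x : ZMod q) m
  rw [h4, sub_self] at h7
  rw [h6, (mul_eq_zero.1 h7).resolve_right (sub_ne_zero.2 h5), mul_zero]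

/-- the bound for given prime divisors `L i` -/
theorem fixedL (K r A : ℕ) (hr : 1 ≤ r) (ε : ℝ) (hε : 0 < ε) (L : Fin r → ℕ)
    (hL : ∀ i, L i ∈ OP K) :
    ∃ C : ℝ, 0 < C ∧ ∀ N : ℕ, 3 ≤ N → ∀ h : Fin r → ℕ, Function.Injective h →
      (∀ i, h i ≤ N ^ A) → ∀ a : ℕ,
      (((Ioc a (a + N)).filter (fun n => ∀ i, Pass (datG (L i) 0) (n + h i))).card : ℝ) ≤
        C * N * (Real.log N) ^ (ε - r) := by
  have : Nonempty (Fin r) := ⟨⟨0, hr⟩⟩
  obtain ⟨F, A0, hA0, hF0, hFs, hFd⟩ := exists_F (Lam K) (odd_Lam K)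
  have hax : ∀ i, AxG (datG (L i) 0) := fun i =>
    DS.ax Pool.Agent.Y79.SG2.low (mem_OP (hL i)).2.2 (mem_OP (hL i)).2.1 0 (Or.inl rfl)
  have hτ : ∀ i, (datG (L i) 0).τ = 1 := by
    intro i
    have e1 : (datG (L i) 0).τ = (datS (L i)).τ := rfl
    rw [e1, tau_prime (mem_OP (hL i)).1]
  set B : ℝ := 2 * (r ^ 2 * (A0 * (A + 2))) with hB
  obtain ⟨C, hC, H⟩ := main Pool.Agent.W52.PQ.sv mn_full BK.bk (fun i => datG (L i) 0) hax
    (fun i => rfl) hτ ε hε B (by positivity)
  rw [Fintype.card_fin] at H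
  refine ⟨C, hC, ?_⟩
  intro N hN h hinj hh a
  have hN3 : (3 : ℝ) ≤ N := by exact_mod_cast hN
  have hN0 : (0 : ℝ) < N := by linarith
  obtain ⟨hL1, -⟩ := d3_log hN
  -- the excluded primes
  set g : Fin r → Fin r → ℕ := fun i j => if i = j then 1 else (F ((h j : ℤ) - h i)).natAbs with hg
  set M : ℕ := ∏ i, ∏ j, g i j with hM
  have hg0 : ∀ i j, g i j ≠ 0 := by
    intro i j
    simp only [hg]
    split_ifs with hij
    · exact one_ne_zero
    · rw [Int.natAbs_ne_zero]
      apply hF0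
      intro h1
      apply hij
      apply hinj
      omega
  have hM0 : M ≠ 0 := by
    rw [hM]
    exact Finset.prod_ne_zero_iff.2 fun i _ => Finset.prod_ne_zero_iff.2 fun j _ => hg0 i j
  have hgle : ∀ i j, g i j ≤ A0 * (N ^ (A + 1)) ^ A0 := by
    intro i j
    have h1 : 1 + N ^ A ≤ N ^ (A + 1) := by
      have h2 : 1 ≤ N ^ A := Nat.one_le_pow _ _ (by omega)
      rw [pow_succ]
      nlinarith
    simp only [hg]
    split_ifs with hij
    · have h2 : 1 ≤ (N ^ (A + 1)) ^ A0 := Nat.one_le_pow _ _ (Nat.pow_pos (by omega))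
      nlinarith
    · refine (hFs _).trans ?_
      apply Nat.mul_le_mul_left
      apply Nat.pow_le_pow_left
      refine le_trans ?_ h1
      have h2 := hh i
      have h3 := hh j
      have h4 : ((h j : ℤ) - h i).natAbs ≤ N ^ A := by
        have h5 : ((h j : ℤ) - h i).natAbs ≤ max (h i) (h j) := by omega
        exact h5.trans (max_le h2 h3)
      omega
  have hMle : (M : ℝ) ≤ ((A0 : ℝ) * ((N : ℝ) ^ (A + 1)) ^ A0) ^ (r * r) := by
    have h1 : M ≤ (A0 * (N ^ (A + 1)) ^ A0) ^ (r * r) := by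
      rw [hM]
      calc ∏ i, ∏ j, g i j ≤ ∏ _i : Fin r, ∏ _j : Fin r, (A0 * (N ^ (A + 1)) ^ A0) :=
            Finset.prod_le_prod' fun i _ => Finset.prod_le_prod' fun j _ => hgle i j
        _ = (A0 * (N ^ (A + 1)) ^ A0) ^ (r * r) := by
            rw [prod_const, prod_const, card_univ, Fintype.card_fin, ← pow_mul]
    exact_mod_cast h1
  set E : Finset ℕ := M.primeFactors with hE
  have hEp : ∀ p ∈ E, p.Prime := fun p hp => Nat.prime_of_mem_primeFactors hp
  have hEc : (E.card : ℝ) ≤ B * Real.log N := by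
    have h1 : 2 ^ E.card ≤ M := by
      have h2 : 2 ^ E.card ≤ ∏ p ∈ E, p := by
        apply Finset.pow_card_le_prod
        intro p hp
        exact (hEp p hp).two_le
      exact h2.trans (Nat.le_of_dvd (Nat.pos_of_ne_zero hM0) (Nat.prod_primeFactors_dvd M))
    have h2 : (E.card : ℝ) * Real.log 2 ≤ Real.log M := by
      rw [← Real.log_pow]
      apply Real.log_le_log (by positivity)
      exact_mod_cast h1
    have hMpos : (0 : ℝ) < M := by exact_mod_cast Nat.pos_of_ne_zero hM0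
    have hA0r : (1 : ℝ) ≤ A0 := by exact_mod_cast hA0
    have h3 := Real.log_le_log hMpos hMle
    rw [Real.log_pow, Real.log_mul (by linarith) (by positivity), Real.log_pow, Real.log_pow] at h3
    have h4 : Real.log A0 ≤ A0 := (Real.log_le_sub_one_of_pos (by linarith)).trans (by linarith)
    have h5 : (A0 : ℝ) ≤ A0 * Real.log N := by nlinarith
    have h6 : Real.log A0 + A0 * (((A + 1 : ℕ) : ℝ) * Real.log N) ≤
        (A0 * (A + 2)) * Real.log N := by
      push_cast
      nlinarith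
    have h7 : Real.log M ≤ (r * r : ℝ) * ((A0 * (A + 2)) * Real.log N) := by
      refine h3.trans ?_
      push_cast
      push_cast at h6
      exact mul_le_mul_of_nonneg_left h6 (by positivity)
    have h8 : 1 / 2 ≤ Real.log 2 := by
      have := Real.log_two_gt_d9
      linarith
    have h9 : (0 : ℝ) ≤ E.card := Nat.cast_nonneg _
    rw [hB]
    nlinarith
  have hdis : ∀ p : ℕ, p.Prime → p ∉ E → Dis (fun i => datG (L i) 0) h p := by
    intro p hp hpE i j hij x hx
    apply hpE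
    have hLL : ∀ i, L i ∣ Lam K := fun i => Finset.dvd_prod_of_mem _ (hL i)
    have hrt : ∀ i, (p ∣ x + h i ∨ (datG (L i) 0).T p (x + h i)) →
        Rt (Lam K) ((x + h i : ℕ) : ZMod p) := by
      intro i hi
      rcases hi with hi | hi
      · exact rt_zero hi
      · exact rt_T hp (hLL i) hi
    have h1 := hrt i hx.1
    have h2 := hrt j hx.2
    have h3 : ((x + h j : ℕ) : ZMod p) = ((x + h i : ℕ) : ZMod p) +
        (((h j : ℤ) - h i : ℤ) : ZMod p) := by
      push_cast
      ring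
    rw [h3] at h2
    have h4 := hFd p _ _ h1 h2
    have h5 : p ∣ g i j := by
      simp only [hg]
      rw [if_neg hij]
      exact Int.natCast_dvd.1 h4
    rw [hE]
    apply Nat.mem_primeFactors.2
    refine ⟨hp, ?_, hM0⟩
    rw [hM]
    exact h5.trans ((Finset.dvd_prod_of_mem (fun j => g i j) (mem_univ j)).trans
      (Finset.dvd_prod_of_mem (fun i => ∏ j, g i j) (mem_univ i)))
  convert H N hN E hEp hEc h hdis a

/-- the main theorem -/
theorem tuples (K r A : ℕ) (hr : 1 ≤ r) (ε : ℝ) (hε : 0 < ε) :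
    ∃ C : ℝ, 0 < C ∧ ∀ N : ℕ, 3 ≤ N → ∀ h : Fin r → ℕ, Function.Injective h →
      (∀ i, h i ≤ N ^ A) → ∀ a : ℕ,
      (((Ioc a (a + N)).filter (fun n => ∀ i, IsOrd K (n + h i))).card : ℝ) ≤
        C * N * (Real.log N) ^ (ε - r) := by
  have hex : ∀ L : Fin r → ℕ, ∃ C : ℝ, 0 < C ∧ ((∀ i, L i ∈ OP K) →
      ∀ N : ℕ, 3 ≤ N → ∀ h : Fin r → ℕ, Function.Injective h →
      (∀ i, h i ≤ N ^ A) → ∀ a : ℕ,
      (((Ioc a (a + N)).filter (fun n => ∀ i, Pass (datG (L i) 0) (n + h i))).card : ℝ) ≤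
        C * N * (Real.log N) ^ (ε - r)) := by
    intro L
    by_cases hL : ∀ i, L i ∈ OP K
    · obtain ⟨C, hC, H⟩ := fixedL K r A hr ε hε L hL
      exact ⟨C, hC, fun _ => H⟩
    · exact ⟨1, one_pos, fun h => absurd h hL⟩
  choose C hC H using hex
  set S := Fintype.piFinset (fun _ : Fin r => OP K) with hS
  have hsum0 : 0 ≤ ∑ L ∈ S, C L := Finset.sum_nonneg fun L _ => (hC L).le
  refine ⟨∑ L ∈ S, C L + 1, by linarith, ?_⟩
  intro N hN h hinj hh a
  have hlog : 0 ≤ (N : ℝ) * (Real.log N) ^ (ε - r) :=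
    mul_nonneg (Nat.cast_nonneg _) (Real.rpow_nonneg (Real.log_natCast_nonneg N) _)
  have hsub : (Ioc a (a + N)).filter (fun n => ∀ i, IsOrd K (n + h i)) ⊆
      S.biUnion (fun L => (Ioc a (a + N)).filter
        (fun n => ∀ i, Pass (datG (L i) 0) (n + h i))) := by
    intro n hn
    rw [mem_filter] at hn
    obtain ⟨hn1, hn2⟩ := hn
    have hL : ∀ i, ∃ L ∈ OP K, Pass (datG L 0) (n + h i) := by
      intro i
      obtain ⟨h2, m, hm, hm3, hK, hSi⟩ := hn2 i
      have hp : m.minFac.Prime := Nat.minFac_prime (by omega)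
      have hd : m.minFac ∣ m := Nat.minFac_dvd m
      have h3 : 3 ≤ m.minFac := by
        have h2 := hp.two_le
        rcases Nat.lt_or_ge 2 m.minFac with h | h
        · exact h
        · have h4 : m.minFac = 2 := by omega
          rw [h4] at hd
          rcases hm with ⟨k, hk⟩
          omega
      refine ⟨m.minFac, ?_, pass0 0 hm hm3 hd h2 hSi (fun h0 => by norm_num at h0)⟩
      unfold OP
      rw [mem_filter, mem_range]
      exact ⟨by omega, hp, h3⟩
    choose L hL1 hL2 using hL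
    rw [mem_biUnion]
    refine ⟨L, Fintype.mem_piFinset.2 hL1, ?_⟩
    rw [mem_filter]
    exact ⟨hn1, hL2⟩
  have h1 := (Finset.card_le_card hsub).trans Finset.card_biUnion_le
  have h2 : (((Ioc a (a + N)).filter (fun n => ∀ i, IsOrd K (n + h i))).card : ℝ) ≤
      ∑ L ∈ S, (((Ioc a (a + N)).filter
        (fun n => ∀ i, Pass (datG (L i) 0) (n + h i))).card : ℝ) := by
    exact_mod_cast h1
  refine h2.trans ?_
  calc ∑ L ∈ S, (((Ioc a (a + N)).filter
        (fun n => ∀ i, Pass (datG (L i) 0) (n + h i))).card : ℝ)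
      ≤ ∑ L ∈ S, C L * N * (Real.log N) ^ (ε - r) := by
        apply sum_le_sum
        intro L hL
        exact H L (Fintype.mem_piFinset.1 hL) N hN h hinj hh a
    _ = (∑ L ∈ S, C L) * (N * (Real.log N) ^ (ε - r)) := by
        rw [Finset.sum_mul]
        exact Finset.sum_congr rfl fun L _ => by ring
    _ ≤ (∑ L ∈ S, C L + 1) * (N * (Real.log N) ^ (ε - r)) :=
        mul_le_mul_of_nonneg_right (by linarith) hlog
    _ = _ := by ring

/-- pairs -/
theorem pairs (K A : ℕ) (ε : ℝ) (hε : 0 < ε) :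
    ∃ C : ℝ, 0 < C ∧ ∀ N : ℕ, 3 ≤ N → ∀ d : ℕ, 1 ≤ d → d ≤ N ^ A → ∀ a : ℕ,
      (((Ioc a (a + N)).filter (fun n => IsOrd K n ∧ IsOrd K (n + d))).card : ℝ) ≤
        C * N * (Real.log N) ^ (ε - 2) := by
  obtain ⟨C, hC, H⟩ := tuples K 2 A (by norm_num) ε hε
  refine ⟨C, hC, ?_⟩
  intro N hN d hd hdN a
  have h1 := H N hN ![0, d] (by
    intro i j hij
    fin_cases i <;> fin_cases j <;> simp at hij ⊢ <;> omega) (by
    intro i
    fin_cases i
    · simp
    · simpa using hdN) a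
  have h2 : (Ioc a (a + N)).filter (fun n => IsOrd K n ∧ IsOrd K (n + d)) =
      (Ioc a (a + N)).filter (fun n => ∀ i : Fin 2, IsOrd K (n + ![0, d] i)) := by
    apply filter_congr
    intro n _
    rw [Fin.forall_fin_two]
    simp
  rw [h2]
  simpa using h1

/-- almost all orders are isolated -/
theorem isolated (K : ℕ) (η : ℝ) (hη : 0 < η) :
    ∃ C : ℝ, 0 < C ∧ ∀ N : ℕ, 3 ≤ N → ∀ a : ℕ,
      (((Ioc a (a + N)).filter (fun n => IsOrd K n ∧ ∃ n' : ℕ, n' ≠ n ∧ IsOrd K n' ∧
        |(n' : ℝ) - n| ≤ (Real.log N) ^ (1 - η))).card : ℝ) ≤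
        C * N * (Real.log N) ^ (-1 - η / 2) := by
  obtain ⟨C, hC, H⟩ := pairs K 1 (η / 2) (by positivity)
  refine ⟨2 * C, by positivity, ?_⟩
  intro N hN a
  obtain ⟨hL1, -⟩ := d3_log hN
  set L := Real.log N with hL
  have hL0 : 0 < L := by linarith
  set R : ℝ := L ^ (1 - η) with hR
  have hR0 : 0 ≤ R := Real.rpow_nonneg hL0.le _
  set T : ℕ := ⌊R⌋₊ with hT
  have hTR : (T : ℝ) ≤ R := Nat.floor_le hR0
  have hRL : R ≤ L := by
    calc R ≤ L ^ (1 : ℝ) := Real.rpow_le_rpow_of_exponent_le hL1 (by linarith)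
      _ = L := Real.rpow_one L
  have hTN : T ≤ N := by
    have h1 : (T : ℝ) ≤ N := by
      have h2 : L ≤ N := by
        have := Real.log_le_sub_one_of_pos (show (0 : ℝ) < N by
          have : 0 < N := by omega
          exact_mod_cast this)
        linarith
      linarith
    exact_mod_cast h1
  set P : ℕ → ℕ → Finset ℕ := fun b d => (Ioc b (b + N)).filter
    (fun n => IsOrd K n ∧ IsOrd K (n + d)) with hP
  have hsub : (Ioc a (a + N)).filter (fun n => IsOrd K n ∧ ∃ n' : ℕ, n' ≠ n ∧ IsOrd K n' ∧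
        |(n' : ℝ) - n| ≤ R) ⊆
      (Icc 1 T).biUnion (fun d => P a d ∪ (P (a - d) d).image (· + d)) := by
    intro n hn
    rw [mem_filter, mem_Ioc] at hn
    obtain ⟨⟨hn1, hn2⟩, ho, n', hne, ho', hab⟩ := hn
    rw [mem_biUnion]
    rcases lt_or_gt_of_ne hne with hlt | hgt
    · -- `n' < n`
      obtain ⟨d, hd⟩ : ∃ d, n = n' + d := ⟨n - n', by omega⟩
      have hd1 : 1 ≤ d := by omega
      have hdT : d ≤ T := by
        apply Nat.le_floor
        have h1 := (abs_le.1 hab).1
        rw [hd] at h1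
        push_cast at h1
        linarith
      refine ⟨d, mem_Icc.2 ⟨hd1, hdT⟩, ?_⟩
      rw [mem_union]
      right
      rw [mem_image]
      refine ⟨n', ?_, hd.symm⟩
      simp only [hP]
      rw [mem_filter, mem_Ioc]
      have := ho'.1
      refine ⟨⟨by omega, by omega⟩, ho', ?_⟩
      rw [← hd]
      exact ho
    · obtain ⟨d, hd⟩ : ∃ d, n' = n + d := ⟨n' - n, by omega⟩
      have hd1 : 1 ≤ d := by omega
      have hdT : d ≤ T := by
        apply Nat.le_floor
        have h1 := (abs_le.1 hab).2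
        rw [hd] at h1
        push_cast at h1
        linarith
      refine ⟨d, mem_Icc.2 ⟨hd1, hdT⟩, ?_⟩
      rw [mem_union]
      left
      simp only [hP]
      rw [mem_filter, mem_Ioc]
      refine ⟨⟨hn1, hn2⟩, ho, ?_⟩
      rw [← hd]
      exact ho'
  have h1 := (Finset.card_le_card hsub).trans Finset.card_biUnion_le
  have h2 : ∀ d ∈ Icc 1 T, ((P a d ∪ (P (a - d) d).image (· + d)).card : ℝ) ≤
      2 * (C * N * L ^ (η / 2 - 2)) := by
    intro d hd
    rw [mem_Icc] at hd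
    have h3 := H N hN d hd.1 (by rw [pow_one]; omega) a
    have h4 := H N hN d hd.1 (by rw [pow_one]; omega) (a - d)
    have h5 : ((P a d ∪ (P (a - d) d).image (· + d)).card : ℝ) ≤
        ((P a d).card : ℝ) + ((P (a - d) d).card : ℝ) := by
      have h6 := (Finset.card_union_le (P a d) ((P (a - d) d).image (· + d))).trans
        (Nat.add_le_add_left Finset.card_image_le _)
      exact_mod_cast h6
    linarith
  have h3 : (((Ioc a (a + N)).filter (fun n => IsOrd K n ∧ ∃ n' : ℕ, n' ≠ n ∧ IsOrd K n' ∧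
        |(n' : ℝ) - n| ≤ R)).card : ℝ) ≤
      ∑ d ∈ Icc 1 T, ((P a d ∪ (P (a - d) d).image (· + d)).card : ℝ) := by
    exact_mod_cast h1
  refine h3.trans ((sum_le_sum h2).trans ?_)
  rw [sum_const, Nat.card_Icc, Nat.add_sub_cancel, nsmul_eq_mul]
  have hLp : 0 ≤ L ^ (η / 2 - 2) := Real.rpow_nonneg hL0.le _
  have hN0 : (0 : ℝ) ≤ N := Nat.cast_nonneg N
  calc (T : ℝ) * (2 * (C * N * L ^ (η / 2 - 2))) ≤ R * (2 * (C * N * L ^ (η / 2 - 2))) := by
        apply mul_le_mul_of_nonneg_right hTR (by positivity)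
    _ = 2 * C * N * (R * L ^ (η / 2 - 2)) := by ring
    _ = 2 * C * N * L ^ (-1 - η / 2) := by
        rw [hR, ← Real.rpow_add hL0]
        congr 2
        ring

/-- Brun's theorem for orders -/
theorem brun (K d : ℕ) (hd : 1 ≤ d) :
    Summable (fun n : ℕ => if IsOrd K n ∧ IsOrd K (n + d) then 1 / (n : ℝ) else 0) := by
  obtain ⟨C, hC, H⟩ := pairs K 1 (1 / 2) (by norm_num)
  set f : ℕ → ℝ := fun n => if IsOrd K n ∧ IsOrd K (n + d) then 1 / (n : ℝ) else 0 with hf
  have hf0 : ∀ n, 0 ≤ f n := by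
    intro n
    simp only [hf]
    split_ifs
    · positivity
    · exact le_rfl
  set C' : ℝ := C * (Real.log 2) ^ (-(3 / 2) : ℝ) with hC'
  have hl2 : 0 < Real.log 2 := Real.log_pos (by norm_num)
  have hC'0 : 0 ≤ C' := mul_nonneg hC.le (Real.rpow_nonneg hl2.le _)
  set g : ℕ → ℝ := fun j => (if j < d + 2 then 1 else 0) + C' * (j : ℝ) ^ (-(3 / 2) : ℝ) with hg
  have hg0 : ∀ j, 0 ≤ g j := by
    intro j
    simp only [hg]
    have : 0 ≤ C' * (j : ℝ) ^ (-(3 / 2) : ℝ) := mul_nonneg hC'0 (Real.rpow_nonneg (Nat.cast_nonneg j) _)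
    split_ifs <;> linarith
  have hgs : Summable g := by
    apply Summable.add
    · apply summable_of_ne_finset_zero (s := range (d + 2))
      intro j hj
      rw [mem_range] at hj
      rw [if_neg hj]
    · exact (Real.summable_nat_rpow.2 (by norm_num)).mul_left C'
  have hblk : ∀ j : ℕ, ∑ n ∈ Ioc (2 ^ j) (2 ^ (j + 1)), f n ≤ g j := by
    intro j
    have h2j : (0 : ℝ) < 2 ^ j := by positivity
    have e : 2 ^ (j + 1) = 2 ^ j + 2 ^ j := by ring
    have hcount : ∑ n ∈ Ioc (2 ^ j) (2 ^ (j + 1)), f n ≤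
        (((Ioc (2 ^ j) (2 ^ j + 2 ^ j)).filter
          (fun n => IsOrd K n ∧ IsOrd K (n + d))).card : ℝ) / 2 ^ j := by
      rw [e]
      simp only [hf]
      rw [← Finset.sum_filter]
      calc ∑ n ∈ (Ioc (2 ^ j) (2 ^ j + 2 ^ j)).filter (fun n => IsOrd K n ∧ IsOrd K (n + d)),
            1 / (n : ℝ) ≤ ∑ _n ∈ (Ioc (2 ^ j) (2 ^ j + 2 ^ j)).filter
              (fun n => IsOrd K n ∧ IsOrd K (n + d)), 1 / (2 : ℝ) ^ j := by
            apply sum_le_sum
            intro n hn
            rw [mem_filter, mem_Ioc] at hn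
            apply one_div_le_one_div_of_le h2j
            exact_mod_cast hn.1.1.le
        _ = _ := by
            rw [sum_const, nsmul_eq_mul]
            ring
    refine hcount.trans ?_
    have hrp : 0 ≤ C' * (j : ℝ) ^ (-(3 / 2) : ℝ) :=
      mul_nonneg hC'0 (Real.rpow_nonneg (Nat.cast_nonneg j) _)
    by_cases hj : j < d + 2
    · simp only [hg, if_pos hj]
      have h1 : (((Ioc (2 ^ j) (2 ^ j + 2 ^ j)).filter
          (fun n => IsOrd K n ∧ IsOrd K (n + d))).card : ℝ) ≤ 2 ^ j := by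
        have h2 := Finset.card_filter_le (Ioc (2 ^ j) (2 ^ j + 2 ^ j))
          (fun n => IsOrd K n ∧ IsOrd K (n + d))
        rw [Nat.card_Ioc, Nat.add_sub_cancel_left] at h2
        exact_mod_cast h2
      have h2 : (((Ioc (2 ^ j) (2 ^ j + 2 ^ j)).filter
          (fun n => IsOrd K n ∧ IsOrd K (n + d))).card : ℝ) / 2 ^ j ≤ 1 := by
        rw [div_le_one h2j]
        exact h1
      linarith
    · push Not at hj
      have h3 : 3 ≤ 2 ^ j := by
        have : 2 ^ 2 ≤ 2 ^ j := Nat.pow_le_pow_right (by norm_num) (by omega)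
        omega
      have hdj : d ≤ (2 ^ j) ^ 1 := by
        rw [pow_one]
        have h4 : j < 2 ^ j := Nat.lt_two_pow_self
        omega
      have h4 := H (2 ^ j) h3 d hd hdj (2 ^ j)
      have hj0 : (0 : ℝ) < j := by
        have : 0 < j := by omega
        exact_mod_cast this
      push_cast at h4
      rw [Real.log_pow, Real.mul_rpow hj0.le hl2.le] at h4
      have e2 : ((1 : ℝ) / 2 - 2) = -(3 / 2) := by norm_num
      rw [e2] at h4
      simp only [hg, if_neg (not_lt.2 hj), zero_add]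
      rw [div_le_iff₀ h2j]
      refine h4.trans (le_of_eq ?_)
      rw [hC']
      ring
  have hpart : ∀ J : ℕ, ∑ n ∈ range (2 ^ J + 1), f n ≤
      f 0 + f 1 + ∑ j ∈ range J, g j := by
    intro J
    induction J with
    | zero =>
      rw [pow_zero, sum_range_succ, sum_range_one, sum_range_zero, add_zero]
    | succ J ih =>
      have h1 : ∑ n ∈ range (2 ^ (J + 1) + 1), f n =
          ∑ n ∈ range (2 ^ J + 1), f n + ∑ n ∈ Ioc (2 ^ J) (2 ^ (J + 1)), f n := by
        rw [← sum_union]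
        · congr 1
          ext n
          have : 2 ^ J ≤ 2 ^ (J + 1) := Nat.pow_le_pow_right (by norm_num) (by omega)
          rw [mem_union, mem_range, mem_range, mem_Ioc]
          omega
        · rw [Finset.disjoint_left]
          intro n h1 h2
          rw [mem_range] at h1
          rw [mem_Ioc] at h2
          omega
      rw [h1, Finset.sum_range_succ g J]
      have := hblk J
      linarith
  apply summable_of_sum_range_le (c := f 0 + f 1 + ∑' j, g j) hf0
  intro n
  have h1 : n ≤ 2 ^ n + 1 := by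
    have : n < 2 ^ n := Nat.lt_two_pow_self
    omega
  calc ∑ i ∈ range n, f i ≤ ∑ i ∈ range (2 ^ n + 1), f i := by
        apply sum_le_sum_of_subset_of_nonneg
        · intro i hi
          rw [mem_range] at hi ⊢
          omega
        · intro i _ _
          exact hf0 i
    _ ≤ f 0 + f 1 + ∑ j ∈ range n, g j := hpart n
    _ ≤ _ := by
        have := hgs.sum_le_tsum (range n) (fun j _ => hg0 j)
        linarith

end Pool.Agent.U671.BT
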