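import Pool.Agent.Y346.SG.OC

set_option autoImplicit false

/-!
# The sieve conditions for one shift
-/

namespace Pool.Agent.U671.BT

open Finset
open Pool.Agent.W114.PQ (Dat Pass Dk S_SV datS)
open Pool.Agent.H951R4.OD (ch PI Ex sum_inv_prod d3_smallest d3_ps d3_log
  one_add_log_le mert_le D2b_cnt1 D2b_small)
open Pool.Agent.Y346.SG
open scoped Classical

/-- the residue classes removed by the prime `p` -/
def bd (D : Dat) (ps : Finset ℕ) (P y p x : ℕ) : Prop :=
  if p ≤ P then (p ∣ x ∧ ¬ p ^ 2 ∣ x) else (y < p ∧ (∃ r ∈ ps, ch (r : ℤ) p = -1) ∧ D.T p x)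

/-- the range of the exact primes -/
noncomputable def Pf (k z : ℕ) (ps : Finset ℕ) : ℕ := if ps.card = k then ps.sup id else z

/-- the mean -/
noncomputable def mu (D : Dat) (ps : Finset ℕ) (P y p : ℕ) : ℝ :=
  (∑ x ∈ range (p ^ 2), (if bd D ps P y p x then (1 : ℝ) else 0)) / (p : ℝ) ^ 2

theorem mu_nonneg (D : Dat) (ps : Finset ℕ) (P y p : ℕ) : 0 ≤ mu D ps P y p := by
  unfold mu
  apply div_nonneg _ (by positivity)
  apply sum_nonneg
  intro x _
  split_ifs <;> norm_num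

theorem mu_small (D : Dat) (ps : Finset ℕ) {P : ℕ} (y : ℕ) {p : ℕ} (hp : p.Prime) (hP : p ≤ P) :
    mu D ps P y p = 1 / p - 1 / (p : ℝ) ^ 2 := by
  have hp0 : (0 : ℝ) < p := by exact_mod_cast hp.pos
  have e1 : ∀ x ∈ range (p ^ 2), (if bd D ps P y p x then (1 : ℝ) else 0) =
      (if (p ∣ x ∧ ¬ p ^ 2 ∣ x) then (1 : ℝ) else 0) := by
    intro x _
    simp only [bd, hP, if_true]
  unfold mu
  rw [Finset.sum_congr rfl e1, D2b_cnt1 hp]
  field_simp

theorem mean_T (mn : S_MN) {D : Dat} (hD : AxG D) {q : ℕ} (hq : q.Prime) (hqc : ¬ q ∣ D.c0) :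
    |(∑ n ∈ range (q ^ 2), (if D.T q n then (1 : ℝ) else 0)) / (q : ℝ) ^ 2 -
    D.ρ q / q| ≤ D.κ / (q : ℝ) ^ 2 := by
  have h := (mn D hD q 1 hq hqc).2 (Nat.coprime_one_left q)
  simpa only [one_mul] using h

theorem mu_large (mn : S_MN) {D : Dat} (hD : AxG D) (ps : Finset ℕ) {P y q : ℕ} (hq : q.Prime)
    (hqc : ¬ q ∣ D.c0) (hP : P < q) (hy : y < q) (hr : ∃ r ∈ ps, ch (r : ℤ) q = -1) :
    D.ρ q / q - D.κ / (q : ℝ) ^ 2 ≤ mu D ps P y q := by
  have h := (abs_le.1 (mean_T mn hD hq hqc)).1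
  have e1 : ∀ x ∈ range (q ^ 2), (if bd D ps P y q x then (1 : ℝ) else 0) =
      (if D.T q x then (1 : ℝ) else 0) := by
    intro x _
    have : ¬ q ≤ P := by omega
    simp only [bd, this, if_false, hy, hr, true_and]
  unfold mu
  rw [Finset.sum_congr rfl e1]
  linarith

theorem mu_le (mn : S_MN) {D : Dat} (hD : AxG D) (ps : Finset ℕ) (P y : ℕ) {q : ℕ} (hq : q.Prime)
    (hqc : ¬ q ∣ D.c0) : mu D ps P y q ≤ (2 * D.κ + 1) / q := by
  have hq0 : (0 : ℝ) < q := by exact_mod_cast hq.pos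
  have hq1 : (1 : ℝ) ≤ q := by exact_mod_cast hq.one_lt.le
  have hκ := hD.κ1
  have hρ := hD.rho_up q
  have hsq' : (1 : ℝ) / (q : ℝ) ^ 2 ≤ 1 / q := by
    apply one_div_le_one_div_of_le hq0
    nlinarith
  have hκs : D.κ / (q : ℝ) ^ 2 = D.κ * (1 / (q : ℝ) ^ 2) := by ring
  have hk2 : (2 * D.κ + 1) / (q : ℝ) = D.κ / q + D.κ * (1 / q) + 1 / q := by ring
  have hk3 : D.κ * (1 / (q : ℝ) ^ 2) ≤ D.κ * (1 / q) := mul_le_mul_of_nonneg_left hsq' (by linarith)
  have hρq' : D.ρ q / q ≤ D.κ / q := div_le_div_of_nonneg_right hρ.2 hq0.le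
  have hk7 : 0 ≤ (1 : ℝ) / q := by positivity
  have hk5 : 0 ≤ D.κ / (q : ℝ) := by positivity
  have hk6 : 0 ≤ D.κ * (1 / (q : ℝ)) := by positivity
  have hk8 : 0 ≤ (1 : ℝ) / (q : ℝ) ^ 2 := by positivity
  by_cases h1 : q ≤ P
  · rw [mu_small D ps y hq h1, hk2]
    linarith
  have h := (abs_le.1 (mean_T mn hD hq hqc)).2
  have hle : mu D ps P y q ≤
      (∑ n ∈ range (q ^ 2), (if D.T q n then (1 : ℝ) else 0)) / (q : ℝ) ^ 2 := by
    unfold mu
    apply div_le_div_of_nonneg_right _ (by positivity)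
    apply sum_le_sum
    intro x _
    by_cases h2 : D.T q x
    · simp only [h2, if_true]
      split_ifs <;> norm_num
    · simp only [bd, h1, h2, if_false, and_false]
      exact le_rfl
  rw [hk2]
  rw [hκs] at h
  linarith

theorem one (mn : S_MN) (bk : S_BK) (D : Dat) (hD : AxG D) (hβ : D.β = 0) (k : ℕ) (hk : 1 ≤ k)
    (δ : ℝ) (hδ0 : 0 < δ) (hδ1 : δ ≤ 1) (hδ : δ ≤ Dk D k) :
    ∃ Cb : ℝ, 3 ≤ Cb ∧ ∃ C : ℝ, 0 ≤ C ∧ ∀ z : ℕ, 3 ≤ z → ∀ ps : Finset ℕ, ps.card ≤ k →
      (∀ p ∈ ps, p.Prime ∧ p ≤ z) → ∀ X : Finset ℕ, (∀ p ∈ X, p.Prime) → ps ⊆ X →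
      D.c0.primeFactors ⊆ X →
      δ * Real.log (Real.log z) - C - C * ∑ p ∈ X, 1 / (p : ℝ) ≤
        ∑ p ∈ (PI 0 z).filter (fun p => p ∉ X),
          mu D ps (Pf k z ps) ⌈Cb * (∏ p ∈ ps, (p : ℝ)) ^ 2⌉₊ p := by
  have hκ := hD.κ1
  obtain ⟨Cb, hCb, hbad⟩ := bk D hD k
  choose Ca hCa hsmall using fun j : ℕ => D2b_small D.c0 hD.c0_pos j
  obtain ⟨Cq, hCq, hsq⟩ := Pool.Agent.H951R4.OD.sum_sq_inv
  set K : ℝ := Real.log (2 * Cb) + 2 * k with hK
  have hkr : (1 : ℝ) ≤ k := by exact_mod_cast hk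
  have hlogCb : 0 < Real.log (2 * Cb) := Real.log_pos (by linarith)
  have hK1 : 1 ≤ K := by rw [hK]; linarith
  have hlogK : 0 ≤ Real.log K := Real.log_nonneg hK1
  set CA : ℝ := ∑ j ∈ range (k + 1), Ca j with hCA
  have hCA0 : 0 ≤ CA := sum_nonneg fun j _ => hCa j
  have hCAj : ∀ j, j ≤ k → Ca j ≤ CA := fun j hj =>
    single_le_sum (f := Ca) (fun j _ => hCa j) (mem_range.2 (by omega))
  set C2 : ℝ := Cb + D.κ * Cq with hC2
  have hC20 : 0 ≤ C2 := by positivity
  set C' : ℝ := CA + C2 + Real.log K with hC'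
  have hC'0 : 0 ≤ C' := by positivity
  refine ⟨Cb, hCb, C' + (2 * D.κ + 1), by linarith, ?_⟩
  intro z hz ps hpk hps X hX hpsX hcX
  set P : ℕ := Pf k z ps with hP
  set y : ℕ := ⌈Cb * (∏ p ∈ ps, (p : ℝ)) ^ 2⌉₊ with hy
  have hz3 : (3 : ℝ) ≤ z := by exact_mod_cast hz
  have hexp1 : Real.exp 1 < 3 := by
    have := Real.exp_one_lt_d9
    linarith
  obtain ⟨hlz, hllz⟩ := d3_log hz
  -- first step: replace `X`
  set W : Finset ℕ := (PI 0 z).filter (fun p => p ∉ X) with hW
  set W1 : Finset ℕ := (PI 0 z).filter (fun p => ¬ p ∣ D.c0 ∧ p ∉ ps) with hW1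
  have hWs : W ⊆ W1 := by
    intro p hp
    rw [hW, mem_filter] at hp
    rw [hW1, mem_filter]
    refine ⟨hp.1, fun h => hp.2 (hcX ?_), fun h => hp.2 (hpsX h)⟩
    have hpp : p.Prime := by
      have := hp.1
      simp only [PI, mem_filter, mem_Ioc] at this
      exact this.2
    exact Nat.mem_primeFactors.2 ⟨hpp, h, hD.c0_pos.ne'⟩
  have hmem1 : ∀ p ∈ W1, p.Prime ∧ p ≤ z ∧ ¬ p ∣ D.c0 ∧ p ∉ ps := by
    intro p hp
    simp only [hW1, PI, mem_filter, mem_Ioc] at hp
    exact ⟨hp.1.2, hp.1.1.2, hp.2.1, hp.2.2⟩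
  have hdiff : ∑ p ∈ W1 \ W, mu D ps P y p ≤ (2 * D.κ + 1) * ∑ p ∈ X, 1 / (p : ℝ) := by
    rw [mul_sum]
    have h1 : W1 \ W ⊆ X := by
      intro p hp
      rw [mem_sdiff] at hp
      by_contra hcon
      apply hp.2
      rw [hW, mem_filter]
      exact ⟨(mem_filter.1 hp.1).1, hcon⟩
    calc ∑ p ∈ W1 \ W, mu D ps P y p ≤ ∑ p ∈ W1 \ W, (2 * D.κ + 1) * (1 / (p : ℝ)) := by
          apply sum_le_sum
          intro p hp
          obtain ⟨h2, -, h3, -⟩ := hmem1 p (mem_sdiff.1 hp).1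
          have := mu_le mn hD ps P y h2 h3
          calc _ ≤ _ := this
            _ = _ := by ring
      _ ≤ _ := by
          apply sum_le_sum_of_subset_of_nonneg h1
          intro p _ _
          positivity
  have hsplit : ∑ p ∈ W1 \ W, mu D ps P y p + ∑ p ∈ W, mu D ps P y p =
      ∑ p ∈ W1, mu D ps P y p := sum_sdiff hWs
  have hmain : δ * Real.log (Real.log z) - C' ≤ ∑ p ∈ W1, mu D ps P y p := by
    rcases Nat.lt_or_ge ps.card k with hlt | hge
    · -- few primes
      have hPz : P = z := by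
        rw [hP]; unfold Pf; rw [if_neg (by omega)]
      have h1 : ∑ p ∈ W1, mu D ps P y p = ∑ r ∈ W1, (1 / (r : ℝ) - 1 / (r : ℝ) ^ 2) := by
        apply sum_congr rfl
        intro p hp
        obtain ⟨h2, h3, -, -⟩ := hmem1 p hp
        exact mu_small D ps y h2 (by omega)
      have h2 := hsmall ps.card ps rfl z (by omega)
      rw [h1]
      have h3 : ((max z 3 : ℕ) : ℝ) = z := by
        rw [max_eq_left hz]
      rw [h3] at h2
      have h4 := hCAj ps.card hpk
      have h5 : δ * Real.log (Real.log z) ≤ Real.log (Real.log z) := by nlinarith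
      rw [hC']
      linarith
    · have hcard : ps.card = k := le_antisymm hpk hge
      have hPs : P = ps.sup id := by
        rw [hP]; unfold Pf; rw [if_pos hcard]
      set Pr : ℕ := ∏ p ∈ ps, p with hPr
      have hprod : (∏ p ∈ ps, (p : ℝ)) = (Pr : ℝ) := by rw [hPr]; push_cast; rfl
      have hne : ps.Nonempty := by
        rw [← Finset.card_pos]; omega
      obtain ⟨P0, hP0, hP0'⟩ := Finset.exists_mem_eq_sup ps hne id
      have hPP0 : P = P0 := by rw [hPs]; exact hP0'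
      have hPmem : P ∈ ps := by rw [hPP0]; exact hP0
      have hPprime : P.Prime := (hps P hPmem).1
      have hPz : P ≤ z := (hps P hPmem).2
      have hleP : ∀ p ∈ ps, p ≤ P := fun p hp => by
        rw [hPs]; exact Finset.le_sup (f := id) hp
      have hPr0 : 0 < Pr := Finset.prod_pos fun p hp => (hps p hp).1.pos
      have hPPr : P ≤ Pr := Nat.le_of_dvd hPr0 (Finset.dvd_prod_of_mem _ hPmem)
      have hPrP : Pr ≤ P ^ k := by
        have := Finset.prod_le_pow_card ps (fun p => p) P hleP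
        rw [hcard] at this
        exact this
      have hPrr : (1 : ℝ) ≤ Pr := by exact_mod_cast hPr0
      rw [hprod] at hy
      have hy1 : Cb * (Pr : ℝ) ^ 2 ≤ y := by rw [hy]; exact Nat.le_ceil _
      have hy2 : (y : ℝ) < Cb * (Pr : ℝ) ^ 2 + 1 := by
        rw [hy]; exact Nat.ceil_lt_add_one (by positivity)
      have hPy : P ≤ y := by
        have h1 : (P : ℝ) ≤ Pr := by exact_mod_cast hPPr
        have h2 : (P : ℝ) ≤ y := by nlinarith
        exact_mod_cast h2
      have hy3 : 3 ≤ y := by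
        have h2 : (3 : ℝ) ≤ y := by nlinarith
        exact_mod_cast h2
      have hyr : (3 : ℝ) ≤ y := by exact_mod_cast hy3
      set P3 : ℝ := ((max P 3 : ℕ) : ℝ) with hP3
      have hP33 : (3 : ℝ) ≤ P3 := by rw [hP3]; exact_mod_cast le_max_right _ _
      have hlP3 : 1 ≤ Real.log P3 := by
        rw [Real.le_log_iff_exp_le (by linarith)]
        linarith
      have hlogy : Real.log y ≤ K * Real.log P3 := by
        have h1 : (y : ℝ) ≤ 2 * Cb * (Pr : ℝ) ^ 2 := by nlinarith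
        have h2 : Real.log y ≤ Real.log (2 * Cb * (Pr : ℝ) ^ 2) := Real.log_le_log (by linarith) h1
        rw [Real.log_mul (by positivity) (by positivity), Real.log_pow] at h2
        have h3 : Real.log Pr ≤ k * Real.log P3 := by
          rw [← Real.log_pow]
          apply Real.log_le_log (by linarith)
          have h4 : (Pr : ℝ) ≤ (P : ℝ) ^ k := by exact_mod_cast hPrP
          refine h4.trans (pow_le_pow_left₀ (Nat.cast_nonneg _) ?_ k)
          rw [hP3]; exact_mod_cast le_max_left _ _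
        rw [hK]
        push_cast at h2
        nlinarith
      have hlogy0 : 0 < Real.log y := Real.log_pos (by linarith)
      have hlly : Real.log (Real.log y) ≤ Real.log K + Real.log (Real.log P3) := by
        rw [← Real.log_mul (by linarith) (by linarith)]
        exact Real.log_le_log hlogy0 hlogy
      have hA0 : 0 ≤ Real.log (Real.log P3) := Real.log_nonneg hlP3
      -- the two sets
      set S1 : Finset ℕ := (PI 0 P).filter (fun r => ¬ r ∣ D.c0 ∧ r ∉ ps) with hS1
      set S2 : Finset ℕ := (PI y z).filter (fun q => ¬ q ∣ D.c0 ∧ ∃ p ∈ ps, ch (p : ℤ) q = -1)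
        with hS2
      have hm1 : ∀ r ∈ S1, r.Prime ∧ r ≤ P := by
        intro r hr
        simp only [hS1, PI, mem_filter, mem_Ioc] at hr
        exact ⟨hr.1.2, hr.1.1.2⟩
      have hm2 : ∀ q ∈ S2, q.Prime ∧ y < q ∧ ¬ q ∣ D.c0 ∧ ∃ p ∈ ps, ch (p : ℤ) q = -1 := by
        intro q hq
        simp only [hS2, PI, mem_filter, mem_Ioc] at hq
        exact ⟨hq.1.2, hq.1.1.1, hq.2.1, hq.2.2⟩
      have hsub1 : S1 ⊆ W1 := by
        intro r hr
        simp only [hS1, PI, mem_filter, mem_Ioc] at hr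
        simp only [hW1, PI, mem_filter, mem_Ioc]
        exact ⟨⟨⟨hr.1.1.1, hr.1.1.2.trans hPz⟩, hr.1.2⟩, hr.2⟩
      have hsub2 : S2 ⊆ W1 := by
        intro q hq
        simp only [hS2, PI, mem_filter, mem_Ioc] at hq
        simp only [hW1, PI, mem_filter, mem_Ioc]
        refine ⟨⟨⟨by omega, hq.1.1.2⟩, hq.1.2⟩, hq.2.1, fun h => ?_⟩
        have := hleP q h
        omega
      have hdisj : Disjoint S1 S2 := by
        rw [Finset.disjoint_left]
        intro r h1 h2
        have := (hm1 r h1).2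
        have := (hm2 r h2).2.1
        omega
      have hU : ∑ p ∈ S1, mu D ps P y p + ∑ p ∈ S2, mu D ps P y p ≤ ∑ p ∈ W1, mu D ps P y p := by
        rw [← sum_union hdisj]
        apply sum_le_sum_of_subset_of_nonneg (union_subset hsub1 hsub2)
        intro p _ _
        exact mu_nonneg _ _ _ _ _
      have hs1 : Real.log (Real.log P3) - CA ≤ ∑ p ∈ S1, mu D ps P y p := by
        have h1 : ∑ p ∈ S1, mu D ps P y p = ∑ r ∈ S1, (1 / (r : ℝ) - 1 / (r : ℝ) ^ 2) :=
          sum_congr rfl fun p hp => mu_small D ps y (hm1 p hp).1 (hm1 p hp).2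
        have h2 := hsmall k ps hcard P hPprime.two_le
        have h3 := hCAj k le_rfl
        rw [h1]
        linarith
      have hs2' : 0 ≤ ∑ p ∈ S2, mu D ps P y p := sum_nonneg fun p _ => mu_nonneg _ _ _ _ _
      rcases Nat.lt_or_ge z y with hzy | hyz
      · have h3 : Real.log (Real.log z) ≤ Real.log (Real.log y) := by
          apply Real.log_le_log (by linarith)
          apply Real.log_le_log (by linarith)
          exact_mod_cast hzy.le
        have h4 : δ * Real.log (Real.log z) ≤ Real.log (Real.log z) := by nlinarith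
        rw [hC']
        linarith
      · have h2 := hbad ps hcard (fun p hp => (hps p hp).1) y z (by rw [hprod]; exact hy1) hyz
        have h4 := hsq S2
        have h5 : ∑ q ∈ S2, (D.ρ q / q - D.κ / (q : ℝ) ^ 2) ≤ ∑ q ∈ S2, mu D ps P y q := by
          apply sum_le_sum
          intro q hq
          obtain ⟨h6, h7, h8, h9⟩ := hm2 q hq
          exact mu_large mn hD ps h6 h8 (by omega) h7 h9
        rw [sum_sub_distrib] at h5
        have h6 : ∑ q ∈ S2, D.κ / (q : ℝ) ^ 2 ≤ D.κ * Cq := by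
          have : ∀ q ∈ S2, D.κ / (q : ℝ) ^ 2 = D.κ * (1 / (q : ℝ) ^ 2) := by
            intro q _; ring
          rw [sum_congr rfl this, ← mul_sum]
          exact mul_le_mul_of_nonneg_left h4 (by linarith)
        have hlog : 0 ≤ Real.log (Real.log z / Real.log y) := by
          apply Real.log_nonneg
          rw [one_le_div hlogy0]
          apply Real.log_le_log (by linarith)
          exact_mod_cast hyz
        have e4 : Dk D k = D.τ - D.κ / 2 ^ k := by unfold Dk; rw [hβ]; ring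
        have h7 : δ * Real.log (Real.log z / Real.log y) ≤
            (D.τ - D.κ / 2 ^ k) * Real.log (Real.log z / Real.log y) := by
          rw [← e4]
          exact mul_le_mul_of_nonneg_right hδ hlog
        rw [Real.log_div (by linarith) (by linarith)] at h7 h2
        have h8 : δ * Real.log (Real.log y) ≤ δ * (Real.log K + Real.log (Real.log P3)) :=
          mul_le_mul_of_nonneg_left hlly (by linarith)
        have h9 : δ * (Real.log K + Real.log (Real.log P3)) ≤
            Real.log K + Real.log (Real.log P3) := by nlinarith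
        rw [hC', hC2]
        linarith
  have hX0 : 0 ≤ ∑ p ∈ X, 1 / (p : ℝ) := sum_nonneg fun p _ => by positivity
  have hX1 : 0 ≤ C' * ∑ p ∈ X, 1 / (p : ℝ) := mul_nonneg hC'0 hX0
  nlinarith

end Pool.Agent.U671.BT
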