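import Pool.Agent.U671.BT.Two

set_option autoImplicit false

/-!
# The bound for several shifts
-/

namespace Pool.Agent.U671.BT

open Finset
open Pool.Agent.W114.PQ (Dat Pass Dk S_SV datS)
open Pool.Agent.H951R4.OD (ch PI Ex sum_inv_prod d3_smallest d3_ps d3_log
  one_add_log_le mert_le D2b_cnt1 D2b_small)
open Pool.Agent.Y346.SG
open scoped Classical

variable {ι : Type} [Fintype ι]

/-- sets of at most `k` primes up to `z` -/
noncomputable def PS (k z : ℕ) : Finset (Finset ℕ) :=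
  (range (k + 1)).biUnion (fun j => (PI 0 z).powersetCard j)

theorem mem_PS {k z : ℕ} {ps : Finset ℕ} (h : ps ∈ PS k z) :
    ps.card ≤ k ∧ ∀ p ∈ ps, p.Prime ∧ p ≤ z := by
  unfold PS at h
  rw [mem_biUnion] at h
  obtain ⟨j, hj, h⟩ := h
  rw [mem_range] at hj
  obtain ⟨h1, h2⟩ := d3_ps h
  exact ⟨by omega, h2⟩

theorem cover (D : ι → Dat) (E : Finset ℕ) (k z : ℕ) (h : ι → ℕ) (a N : ℕ) :
    (Ioc a (a + N)).filter (fun n => ∀ i, Pass (D i) (n + h i)) ⊆
      (Fintype.piFinset (fun _ : ι => PS k z)).biUnion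
        (fun ps => (Ioc a (a + N)).filter (Cond D E k z h ps)) := by
  intro n hn
  rw [mem_filter] at hn
  obtain ⟨hn1, hn2⟩ := hn
  have key : ∀ i, ∃ ps ∈ PS k z, (∀ p ∈ ps, Ex (D i).c0 (n + h i) p ∧ p ∉ E) ∧
      ∀ p, Ex (D i).c0 (n + h i) p → p ∉ E → p ≤ Pf k z ps → p ∈ ps := by
    intro i
    set T := (PI 0 z).filter (fun p => Ex (D i).c0 (n + h i) p ∧ p ∉ E) with hT
    have hTm : ∀ p, p ≤ z → Ex (D i).c0 (n + h i) p → p ∉ E → p ∈ T := by
      intro p hp he hE
      rw [hT, mem_filter]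
      refine ⟨?_, he, hE⟩
      unfold PI
      rw [mem_filter, mem_Ioc]
      exact ⟨⟨he.1.pos, hp⟩, he.1⟩
    have hTe : ∀ p ∈ T, Ex (D i).c0 (n + h i) p ∧ p ∉ E := fun p hp => (mem_filter.1 hp).2
    have hTs : T ⊆ PI 0 z := filter_subset _ _
    by_cases hk : T.card < k
    · refine ⟨T, ?_, hTe, ?_⟩
      · unfold PS
        rw [mem_biUnion]
        exact ⟨T.card, mem_range.2 (by omega), mem_powersetCard.2 ⟨hTs, rfl⟩⟩
      · intro p h1 h2 h3
        unfold Pf at h3
        rw [if_neg (by omega)] at h3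
        exact hTm p h3 h1 h2
    · push Not at hk
      have h0 : 0 ∉ T := fun h => Nat.not_prime_zero (hTe 0 h).1.1
      obtain ⟨ps, hps, hcard, hdown⟩ := d3_smallest T h0 k hk
      refine ⟨ps, ?_, fun p hp => hTe p (hps hp), ?_⟩
      · unfold PS
        rw [mem_biUnion]
        exact ⟨k, mem_range.2 (by omega), mem_powersetCard.2 ⟨hps.trans hTs, hcard⟩⟩
      · intro p h1 h2 h3
        unfold Pf at h3
        rw [if_pos hcard] at h3
        apply hdown p _ h3
        apply hTm p _ h1 h2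
        refine h3.trans (Finset.sup_le fun q hq => ?_)
        have := hTs (hps hq)
        unfold PI at this
        rw [mem_filter, mem_Ioc] at this
        exact this.1.2
  choose ps hps1 hps2 hps3 using key
  rw [mem_biUnion]
  refine ⟨ps, Fintype.mem_piFinset.2 hps1, ?_⟩
  rw [mem_filter]
  exact ⟨hn1, fun i => ⟨hn2 i, hps2 i, hps3 i⟩⟩

theorem comb (sv : S_SV) (mn : S_MN) (bk : S_BK) (D : ι → Dat) (hD : ∀ i, AxG (D i))
    (hβ : ∀ i, (D i).β = 0) (k : ℕ) (hk : 1 ≤ k) (δ : ℝ) (hδ0 : 0 < δ) (hδ1 : δ ≤ 1)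
    (hδ : ∀ i, δ ≤ Dk (D i) k) :
    ∃ C : ℝ, 1 ≤ C ∧ ∀ z N : ℕ, 3 ≤ z →
      C * Real.log z * (1 + Real.log (Real.log z)) ≤ Real.log N →
      ∀ E : Finset ℕ, (∀ p ∈ E, p.Prime) → ∀ s : ℝ, ∑ p ∈ E, 1 / (p : ℝ) ≤ s →
      ∀ h : ι → ℕ, (∀ p : ℕ, p.Prime → p ∉ E → Dis D h p) → ∀ a : ℕ,
      (((Ioc a (a + N)).filter (fun n => ∀ i, Pass (D i) (n + h i))).card : ℝ) ≤
        C * N * (1 + Real.log (Real.log z)) ^ (k * Fintype.card ι) *
          (Real.log z) ^ (-(Fintype.card ι * δ)) * Real.exp (C * s) := by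
  set r : ℕ := Fintype.card ι with hr
  obtain ⟨C, hC, hest⟩ := est sv mn bk D hD hβ k hk δ hδ0 hδ1 hδ
  choose D' hD'1 hD' using sum_inv_prod
  set Ds : ℝ := ∑ j ∈ range (k + 1), D' j with hDs
  have hDs1 : 1 ≤ Ds := by
    refine le_trans (hD'1 0) (single_le_sum (f := D') (fun j _ => by linarith [hD'1 j])
      (mem_range.2 (by omega)))
  have hDr : 1 ≤ Ds ^ r := one_le_pow₀ hDs1
  refine ⟨C * Ds ^ r, by nlinarith, ?_⟩
  intro z N hz hN E hE s hs h hdis a
  obtain ⟨hlz, hllz⟩ := d3_log hz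
  have hs0 : 0 ≤ s := le_trans (sum_nonneg fun p _ => by positivity) hs
  set LL : ℝ := 1 + Real.log (Real.log z) with hLL
  have hLL1 : 1 ≤ LL := by linarith
  set W : ℝ := (Real.log z) ^ (-(r * δ)) with hW
  have hW0 : 0 ≤ W := Real.rpow_nonneg (by linarith) _
  have hN' : C * Real.log z * LL ≤ Real.log N := by
    refine le_trans ?_ hN
    rw [mul_assoc, mul_assoc]
    apply mul_le_mul_of_nonneg_right _ (by positivity)
    nlinarith
  have hcov := (Finset.card_le_card (cover D E k z h a N)).trans Finset.card_biUnion_le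
  have hcov2 : (((Ioc a (a + N)).filter (fun n => ∀ i, Pass (D i) (n + h i))).card : ℝ) ≤
      ∑ ps ∈ Fintype.piFinset (fun _ : ι => PS k z),
        (((Ioc a (a + N)).filter (Cond D E k z h ps)).card : ℝ) := by
    exact_mod_cast hcov
  refine hcov2.trans ?_
  have h1 : ∀ ps ∈ Fintype.piFinset (fun _ : ι => PS k z),
      (((Ioc a (a + N)).filter (Cond D E k z h ps)).card : ℝ) ≤
      (C * N * W * Real.exp (C * s)) * ∏ i, (1 / ∏ p ∈ ps i, (p : ℝ)) := by
    intro ps hps
    rw [Fintype.mem_piFinset] at hps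
    have h2 := hest z N hz hN' E hE s hs h hdis a ps (fun i => mem_PS (hps i))
    refine h2.trans (le_of_eq ?_)
    ring
  refine (sum_le_sum h1).trans ?_
  rw [← mul_sum]
  have h3 : ∑ ps ∈ Fintype.piFinset (fun _ : ι => PS k z), ∏ i, (1 / ∏ p ∈ ps i, (p : ℝ)) =
      ∏ _i : ι, ∑ ps ∈ PS k z, (1 / ∏ p ∈ ps, (p : ℝ)) :=
    (Finset.prod_univ_sum (fun _ : ι => PS k z) (fun _ ps => 1 / ∏ p ∈ ps, (p : ℝ))).symm
  rw [h3, prod_const, card_univ]
  have h4 : ∑ ps ∈ PS k z, (1 / ∏ p ∈ ps, (p : ℝ)) ≤ Ds * LL ^ k := by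
    have h5 : ∀ ps : Finset ℕ, 0 ≤ 1 / ∏ p ∈ ps, (p : ℝ) := fun ps => by positivity
    have h6 : ∑ ps ∈ PS k z, (1 / ∏ p ∈ ps, (p : ℝ)) ≤
        ∑ j ∈ range (k + 1), ∑ ps ∈ (PI 0 z).powersetCard j, (1 / ∏ p ∈ ps, (p : ℝ)) := by
      unfold PS
      rw [Finset.sum_biUnion]
      intro i _ j _ hij
      rw [Function.onFun, Finset.disjoint_left]
      intro ps h3 h4
      exact hij ((d3_ps h3).1.symm.trans (d3_ps h4).1)
    refine h6.trans ?_
    rw [hDs, sum_mul]
    apply sum_le_sum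
    intro j hj
    rw [mem_range] at hj
    refine (hD' j z hz).trans ?_
    apply mul_le_mul_of_nonneg_left _ (by linarith [hD'1 j])
    exact pow_le_pow_right₀ hLL1 (by omega)
  have h5 : 0 ≤ ∑ ps ∈ PS k z, (1 / ∏ p ∈ ps, (p : ℝ)) := sum_nonneg fun ps _ => by positivity
  have h6 := pow_le_pow_left₀ h5 h4 r
  have hexp : Real.exp (C * s) ≤ Real.exp (C * Ds ^ r * s) := by
    apply Real.exp_le_exp.2
    apply mul_le_mul_of_nonneg_right _ hs0
    nlinarith
  have hN0 : (0 : ℝ) ≤ N := Nat.cast_nonneg N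
  have hC0 : 0 ≤ C := by linarith
  calc C * N * W * Real.exp (C * s) * (∑ ps ∈ PS k z, (1 / ∏ p ∈ ps, (p : ℝ))) ^ Fintype.card ι
      ≤ C * N * W * Real.exp (C * Ds ^ r * s) * (Ds * LL ^ k) ^ r := by
        rw [← hr]
        have := Real.exp_pos (C * s)
        gcongr
    _ = C * Ds ^ r * N * LL ^ (k * r) * W * Real.exp (C * Ds ^ r * s) := by
        rw [mul_pow, ← pow_mul]
        ring

/-- the choice of `z` -/
theorem choice (C1 : ℝ) (hC1 : 1 ≤ C1) (N : ℕ) (hbig : 36 * C1 ^ 2 ≤ Real.log N) :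
    ∃ z : ℕ, 3 ≤ z ∧ C1 * Real.log z * (1 + Real.log (Real.log z)) ≤ Real.log N ∧
      Real.log N / (2 * (C1 * (1 + Real.log (Real.log N)))) ≤ Real.log z ∧
      Real.log z ≤ Real.log N := by
  set L := Real.log N with hL
  have hL1 : 1 ≤ L := by nlinarith
  have hL0 : 0 < L := by linarith
  have hlogL : 0 ≤ Real.log L := Real.log_nonneg hL1
  set s : ℝ := L / (C1 * (1 + Real.log L)) with hs
  have hden : 0 < C1 * (1 + Real.log L) := by positivity
  have hs2 : 2 ≤ s := by
    rw [hs, le_div_iff₀ hden]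
    have h1 := one_add_log_le (1 / 2) L (by norm_num) hL1
    rw [← Real.sqrt_eq_rpow] at h1
    have h2 : 6 * C1 ≤ Real.sqrt L := by
      apply Real.le_sqrt_of_sq_le
      nlinarith
    have h3 : Real.sqrt L * Real.sqrt L = L := Real.mul_self_sqrt hL0.le
    have h5 : (0:ℝ) ≤ Real.sqrt L := Real.sqrt_nonneg _
    have h4 : 1 + Real.log L ≤ 3 * Real.sqrt L := by
      have : (1 + 1 / (1 / 2 : ℝ)) = 3 := by norm_num
      rw [this] at h1
      exact h1
    calc 2 * (C1 * (1 + Real.log L)) ≤ 2 * (C1 * (3 * Real.sqrt L)) := by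
          apply mul_le_mul_of_nonneg_left _ (by norm_num)
          exact mul_le_mul_of_nonneg_left h4 (by linarith)
      _ = (6 * C1) * Real.sqrt L := by ring
      _ ≤ Real.sqrt L * Real.sqrt L := mul_le_mul_of_nonneg_right h2 h5
      _ = L := h3
  set z : ℕ := ⌊Real.exp s⌋₊ with hz
  have hexps : 4 ≤ Real.exp s := by
    have h1 : Real.exp 2 ≤ Real.exp s := Real.exp_le_exp.2 hs2
    have h2 : Real.exp 2 = Real.exp 1 * Real.exp 1 := by rw [← Real.exp_add]; norm_num
    have h3 := Real.exp_one_gt_d9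
    nlinarith
  have hz4 : 4 ≤ z := by
    rw [hz]
    exact Nat.le_floor (by exact_mod_cast hexps)
  have hz3 : 3 ≤ z := by omega
  have hz0 : (0 : ℝ) < z := by
    have : 0 < z := by omega
    exact_mod_cast this
  have hzle : (z : ℝ) ≤ Real.exp s := Nat.floor_le (Real.exp_pos s).le
  have hzge : Real.exp s / 2 ≤ z := by
    have h1 : Real.exp s < z + 1 := Nat.lt_floor_add_one _
    linarith
  have hlogz_le : Real.log z ≤ s := by
    have := Real.log_le_log hz0 hzle
    rwa [Real.log_exp] at this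
  have hlogz_ge : s / 2 ≤ Real.log z := by
    have h1 := Real.log_le_log (by positivity) hzge
    rw [Real.log_div (Real.exp_pos s).ne' (by norm_num), Real.log_exp] at h1
    have h2 : Real.log 2 ≤ 1 := by
      have := Real.log_two_lt_d9
      linarith
    linarith
  have hlogz1 : 1 ≤ Real.log z := by linarith
  have hlogz0 : 0 < Real.log z := by linarith
  have hsL : s ≤ L := by
    rw [hs]
    apply div_le_self hL0.le
    nlinarith
  have hll : Real.log (Real.log z) ≤ Real.log L :=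
    Real.log_le_log hlogz0 (hlogz_le.trans hsL)
  have hll0 : 0 ≤ Real.log (Real.log z) := Real.log_nonneg hlogz1
  refine ⟨z, hz3, ?_, ?_, hlogz_le.trans hsL⟩
  · calc C1 * Real.log z * (1 + Real.log (Real.log z)) ≤ C1 * s * (1 + Real.log L) := by
          apply mul_le_mul _ (by linarith) (by linarith) (by positivity)
          exact mul_le_mul_of_nonneg_left hlogz_le (by linarith)
      _ = L := by
          rw [hs]
          field_simp
  · refine le_trans (le_of_eq ?_) hlogz_ge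
    rw [hs, div_div]
    ring_nf

/-- the sum of the reciprocals of few primes -/
theorem sumE : ∃ C : ℝ, 0 ≤ C ∧ ∀ E : Finset ℕ, (∀ p ∈ E, p.Prime) → ∀ w : ℕ, 3 ≤ w →
    ∑ p ∈ E, 1 / (p : ℝ) ≤ Real.log (Real.log w) + C + E.card / w := by
  obtain ⟨C, hC, h⟩ := mert_le
  refine ⟨C, hC, fun E hE w hw => ?_⟩
  have h1 := (abs_le.1 (h w hw)).2
  have hw0 : (0 : ℝ) < w := by
    have : 0 < w := by omega
    exact_mod_cast this
  rw [← Finset.sum_filter_add_sum_filter_not E (fun p => p ≤ w)]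
  have h2 : ∑ p ∈ E.filter (fun p => p ≤ w), 1 / (p : ℝ) ≤ ∑ q ∈ PI 0 w, (1 : ℝ) / q := by
    apply sum_le_sum_of_subset_of_nonneg
    · intro p hp
      rw [mem_filter] at hp
      simp only [PI, mem_filter, mem_Ioc]
      exact ⟨⟨(hE p hp.1).pos, hp.2⟩, hE p hp.1⟩
    · intro p _ _
      positivity
  have h3 : ∑ p ∈ E.filter (fun p => ¬ p ≤ w), 1 / (p : ℝ) ≤ E.card / w := by
    calc ∑ p ∈ E.filter (fun p => ¬ p ≤ w), 1 / (p : ℝ) ≤
        ∑ _p ∈ E.filter (fun p => ¬ p ≤ w), 1 / (w : ℝ) := by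
          apply sum_le_sum
          intro p hp
          rw [mem_filter] at hp
          apply one_div_le_one_div_of_le hw0
          have : w ≤ p := by omega
          exact_mod_cast this
      _ = ((E.filter (fun p => ¬ p ≤ w)).card : ℝ) / w := by
          rw [sum_const, nsmul_eq_mul]
          ring
      _ ≤ _ := by
          apply div_le_div_of_nonneg_right _ hw0.le
          exact_mod_cast Finset.card_filter_le _ _
  linarith

theorem main [Nonempty ι] (sv : S_SV) (mn : S_MN) (bk : S_BK) (D : ι → Dat)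
    (hD : ∀ i, AxG (D i)) (hβ : ∀ i, (D i).β = 0) (hτ : ∀ i, (D i).τ = 1) (ε : ℝ) (hε : 0 < ε)
    (A : ℝ) (hA : 0 ≤ A) :
    ∃ C : ℝ, 0 < C ∧ ∀ N : ℕ, 3 ≤ N → ∀ E : Finset ℕ, (∀ p ∈ E, p.Prime) →
      (E.card : ℝ) ≤ A * Real.log N →
      ∀ h : ι → ℕ, (∀ p : ℕ, p.Prime → p ∉ E → Dis D h p) → ∀ a : ℕ,
      (((Ioc a (a + N)).filter (fun n => ∀ i, Pass (D i) (n + h i))).card : ℝ) ≤
        C * N * (Real.log N) ^ (ε - Fintype.card ι) := by
  set r : ℕ := Fintype.card ι with hr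
  have hr1 : 1 ≤ r := Fintype.card_pos
  have hrr : (1 : ℝ) ≤ r := by exact_mod_cast hr1
  -- the choice of `k`
  set η : ℝ := min (ε / (2 * r)) (1 / 2) with hη
  have hη0 : 0 < η := lt_min (by positivity) (by norm_num)
  have hη2 : η ≤ 1 / 2 := min_le_right _ _
  have hη1 : r * η ≤ ε / 2 := by
    calc r * η ≤ r * (ε / (2 * r)) := mul_le_mul_of_nonneg_left (min_le_left _ _) (by linarith)
      _ = ε / 2 := by field_simp
  set κM : ℝ := ∑ i, (D i).κ with hκM
  have hκ1 : ∀ i, 1 ≤ (D i).κ := fun i => (hD i).κ1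
  have hκle : ∀ i, (D i).κ ≤ κM := fun i =>
    single_le_sum (f := fun i => (D i).κ) (fun j _ => by linarith [hκ1 j]) (mem_univ i)
  have hκM0 : 0 < κM := by
    obtain ⟨i⟩ := ‹Nonempty ι›
    linarith [hκle i, hκ1 i]
  obtain ⟨k0, hk0⟩ := exists_pow_lt_of_lt_one (show 0 < η / κM by positivity)
    (by norm_num : (1 / 2 : ℝ) < 1)
  set k : ℕ := k0 + 1 with hk
  have hkη : κM / 2 ^ k ≤ η := by
    have e : κM / 2 ^ k = κM * (1 / 2 : ℝ) ^ k := by
      rw [one_div, inv_pow, div_eq_mul_inv]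
    have e2 : (1 / 2 : ℝ) ^ k ≤ (1 / 2 : ℝ) ^ k0 :=
      pow_le_pow_of_le_one (by norm_num) (by norm_num) (by omega)
    rw [e]
    rw [lt_div_iff₀ hκM0] at hk0
    nlinarith
  set δ : ℝ := 1 - η with hδ
  have hδ0 : 0 < δ := by linarith
  have hδ1 : δ ≤ 1 := by linarith
  have hδD : ∀ i, δ ≤ Dk (D i) k := by
    intro i
    unfold Dk
    rw [hβ i, hτ i]
    have : (D i).κ / 2 ^ k ≤ κM / 2 ^ k := div_le_div_of_nonneg_right (hκle i) (by positivity)
    linarith
  obtain ⟨C1, hC1, H⟩ := comb sv mn bk D hD hβ k (by omega) δ hδ0 hδ1 hδD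
  obtain ⟨Cm, hCm, hsE⟩ := sumE
  set nC : ℕ := ⌈C1⌉₊ with hnC
  have hnC1 : C1 ≤ nC := Nat.le_ceil _
  set M : ℕ := k * r + r + nC with hM
  have hM1 : 1 ≤ M := by omega
  have hMr : (1 : ℝ) ≤ M := by exact_mod_cast hM1
  set b : ℝ := ε / (2 * M) with hb
  have hb0 : 0 < b := by positivity
  set G : ℝ := Real.exp (C1 * (Cm + A)) with hG
  have hG0 : 0 < G := Real.exp_pos _
  set C2 : ℝ := C1 * (2 * C1) ^ r * G * 3 ^ nC * (1 + 1 / b) ^ M with hC2
  have hC20 : 0 < C2 := by positivity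
  refine ⟨(36 * C1 ^ 2) ^ r + C2, by positivity, ?_⟩
  intro N hN E hE hEc h hdis a
  have hN3 : (3 : ℝ) ≤ N := by exact_mod_cast hN
  have hN0 : (0 : ℝ) < N := by linarith
  obtain ⟨hL1, hLL0⟩ := d3_log hN
  set L := Real.log N with hL
  have hL0 : 0 < L := by linarith
  have hLpow : 0 < L ^ (ε - (r : ℝ)) := Real.rpow_pos_of_pos hL0 _
  rcases lt_or_ge L (36 * C1 ^ 2) with hsmall | hbig
  · -- trivial bound
    have h1 : (((Ioc a (a + N)).filter (fun n => ∀ i, Pass (D i) (n + h i))).card : ℝ) ≤ N := by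
      have h2 := Finset.card_filter_le (Ioc a (a + N)) (fun n => ∀ i, Pass (D i) (n + h i))
      rw [Nat.card_Ioc] at h2
      have h3 : ((Ioc a (a + N)).filter (fun n => ∀ i, Pass (D i) (n + h i))).card ≤ N := by omega
      exact_mod_cast h3
    refine h1.trans ?_
    have h4 : (L ^ r)⁻¹ ≤ L ^ (ε - (r : ℝ)) := by
      rw [← Real.rpow_natCast, ← Real.rpow_neg hL0.le]
      exact Real.rpow_le_rpow_of_exponent_le hL1 (by linarith)
    have h5 : 1 ≤ (36 * C1 ^ 2) ^ r * L ^ (ε - (r : ℝ)) := by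
      calc (1 : ℝ) = L ^ r * (L ^ r)⁻¹ := by field_simp
        _ ≤ (36 * C1 ^ 2) ^ r * L ^ (ε - (r : ℝ)) := by
          apply mul_le_mul (pow_le_pow_left₀ hL0.le hsmall.le r) h4 (by positivity) (by positivity)
    have h6 : 0 ≤ (N : ℝ) * (C2 * L ^ (ε - (r : ℝ))) := by positivity
    nlinarith
  · obtain ⟨z, hz3, hcond, hzge, hzL⟩ := choice C1 hC1 N hbig
    obtain ⟨hlz1, hllz⟩ := d3_log hz3
    rw [← hL] at hcond hzge hzL
    set w : ℕ := ⌈L⌉₊ + 3 with hw
    have hwL : L ≤ w := by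
      rw [hw]
      push_cast
      have := Nat.le_ceil L
      linarith
    have hwL2 : (w : ℝ) ≤ 5 * L := by
      rw [hw]
      push_cast
      have := Nat.ceil_lt_add_one hL0.le
      linarith
    have hw0 : (0 : ℝ) < w := by linarith
    have hEw : (E.card : ℝ) / w ≤ A := by
      rw [div_le_iff₀ hw0]
      refine hEc.trans ?_
      exact mul_le_mul_of_nonneg_left hwL hA
    have hs := hsE E hE w (by omega)
    have hs' : ∑ p ∈ E, 1 / (p : ℝ) ≤ Real.log (Real.log w) + (Cm + A) := by linarith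
    have h1 := H z N hz3 hcond E hE _ hs' h hdis a
    refine h1.trans ?_
    -- the factors
    have hLLs : 1 ≤ 1 + Real.log L := by linarith
    have hll : Real.log (Real.log z) ≤ Real.log L := Real.log_le_log (by linarith) hzL
    have e1 : (1 + Real.log (Real.log z)) ^ (k * r) ≤ (1 + Real.log L) ^ (k * r) :=
      pow_le_pow_left₀ (by linarith) (by linarith) _
    have e2 : (Real.log z) ^ (-(r * δ)) ≤
        (2 * C1) ^ r * (1 + Real.log L) ^ r * L ^ (-(r : ℝ) + ε / 2) := by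
      have hden : 0 < 2 * (C1 * (1 + Real.log L)) := by positivity
      have f1 : (Real.log z) ^ (-(r * δ)) ≤
          (L / (2 * (C1 * (1 + Real.log L)))) ^ (-(r * δ)) := by
        apply Real.rpow_le_rpow_of_nonpos (by positivity) hzge
        have : 0 ≤ (r : ℝ) * δ := by positivity
        linarith
      refine f1.trans ?_
      rw [Real.div_rpow hL0.le (by positivity)]
      have f3 : L ^ (-(r * δ)) ≤ L ^ (-(r : ℝ) + ε / 2) := by
        apply Real.rpow_le_rpow_of_exponent_le hL1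
        rw [hδ]
        linarith
      have f4 : (1 : ℝ) ≤ 2 * (C1 * (1 + Real.log L)) := by nlinarith
      have f5 : ((2 * (C1 * (1 + Real.log L))) ^ (-(r * δ)))⁻¹ ≤
          (2 * (C1 * (1 + Real.log L))) ^ r := by
        rw [← Real.rpow_neg (by linarith), ← Real.rpow_natCast]
        apply Real.rpow_le_rpow_of_exponent_le f4
        nlinarith
      rw [div_eq_mul_inv]
      calc L ^ (-(r * δ)) * ((2 * (C1 * (1 + Real.log L))) ^ (-(r * δ)))⁻¹
          ≤ L ^ (-(r : ℝ) + ε / 2) * (2 * (C1 * (1 + Real.log L))) ^ r := by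
            apply mul_le_mul f3 f5 (by positivity) (by positivity)
        _ = _ := by
            rw [show 2 * (C1 * (1 + Real.log L)) = (2 * C1) * (1 + Real.log L) by ring, mul_pow]
            ring
    have hlogw : Real.log w ≤ 3 * (1 + Real.log L) := by
      have f1 : Real.log w ≤ Real.log (5 * L) := Real.log_le_log hw0 hwL2
      rw [Real.log_mul (by norm_num) hL0.ne'] at f1
      have f2 : Real.log 5 ≤ 3 := by
        have := Real.log_le_sub_one_of_pos (show (0 : ℝ) < 5 by norm_num)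
        have h8 : Real.log 5 ≤ Real.log 8 := Real.log_le_log (by norm_num) (by norm_num)
        have h9 : Real.log 8 = 3 * Real.log 2 := by
          rw [show (8 : ℝ) = 2 ^ 3 by norm_num, Real.log_pow]
          norm_num
        have := Real.log_two_lt_d9
        linarith
      linarith
    have hw3 : 3 ≤ w := by omega
    have hlogw1 : 1 ≤ Real.log w := (d3_log hw3).1
    have e5 : Real.exp (C1 * (Real.log (Real.log w) + (Cm + A))) ≤
        G * (3 ^ nC * (1 + Real.log L) ^ nC) := by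
      rw [mul_add, Real.exp_add, mul_comm (Real.exp _), ← hG]
      apply mul_le_mul_of_nonneg_left _ hG0.le
      rw [← mul_pow]
      calc Real.exp (C1 * Real.log (Real.log w)) ≤ Real.exp (nC * Real.log (Real.log w)) := by
            apply Real.exp_le_exp.2
            apply mul_le_mul_of_nonneg_right hnC1
            exact Real.log_nonneg hlogw1
        _ = (Real.log w) ^ nC := by
            rw [mul_comm, Real.exp_mul, Real.exp_log (by linarith), Real.rpow_natCast]
        _ ≤ (3 * (1 + Real.log L)) ^ nC := pow_le_pow_left₀ (by linarith) hlogw nC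
    have e3 : (1 + Real.log L) ^ M ≤ (1 + 1 / b) ^ M * L ^ (ε / 2) := by
      have f1 := one_add_log_le b L hb0 hL1
      calc (1 + Real.log L) ^ M ≤ ((1 + 1 / b) * L ^ b) ^ M :=
            pow_le_pow_left₀ (by linarith) f1 _
        _ = (1 + 1 / b) ^ M * L ^ (ε / 2) := by
            rw [mul_pow, ← Real.rpow_natCast (L ^ b), ← Real.rpow_mul hL0.le]
            congr 2
            rw [hb]
            field_simp
    have hlp : 0 ≤ L ^ (-(r : ℝ) + ε / 2) := Real.rpow_nonneg hL0.le _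
    have hrz : 0 ≤ (Real.log z) ^ (-(r * δ)) := Real.rpow_nonneg (by linarith) _
    have e4 : C1 * N * (1 + Real.log (Real.log z)) ^ (k * r) * (Real.log z) ^ (-(r * δ)) *
        Real.exp (C1 * (Real.log (Real.log w) + (Cm + A))) ≤ C2 * N * L ^ (ε - (r : ℝ)) := by
      calc C1 * N * (1 + Real.log (Real.log z)) ^ (k * r) * (Real.log z) ^ (-(r * δ)) *
            Real.exp (C1 * (Real.log (Real.log w) + (Cm + A)))
          ≤ C1 * N * (1 + Real.log L) ^ (k * r) *
              ((2 * C1) ^ r * (1 + Real.log L) ^ r * L ^ (-(r : ℝ) + ε / 2)) *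
              (G * (3 ^ nC * (1 + Real.log L) ^ nC)) := by
            gcongr
        _ = C1 * (2 * C1) ^ r * G * 3 ^ nC * N * (1 + Real.log L) ^ M *
              L ^ (-(r : ℝ) + ε / 2) := by
            rw [hM, pow_add, pow_add]
            ring
        _ ≤ C1 * (2 * C1) ^ r * G * 3 ^ nC * N * ((1 + 1 / b) ^ M * L ^ (ε / 2)) *
              L ^ (-(r : ℝ) + ε / 2) := by
            apply mul_le_mul_of_nonneg_right _ hlp
            apply mul_le_mul_of_nonneg_left e3
            positivity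
        _ = C2 * N * (L ^ (ε / 2) * L ^ (-(r : ℝ) + ε / 2)) := by rw [hC2]; ring
        _ = C2 * N * L ^ (ε - (r : ℝ)) := by
            rw [← Real.rpow_add hL0]
            congr 2
            ring
    refine e4.trans ?_
    have h7 : 0 ≤ (36 * C1 ^ 2) ^ r * (N * L ^ (ε - (r : ℝ))) := by positivity
    nlinarith

end Pool.Agent.U671.BT
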