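import Pool.Agent.U671.BT.One

set_option autoImplicit false

/-!
# The sieve for several shifts
-/

namespace Pool.Agent.U671.BT

open Finset
open Pool.Agent.W114.PQ (Dat Pass Dk S_SV datS)
open Pool.Agent.H951R4.OD (ch PI Ex sum_inv_prod d3_smallest d3_ps d3_log
  one_add_log_le mert_le D2b_cnt1 D2b_small)
open Pool.Agent.Y346.SG
open scoped Classical

/-- an affine substitution permutes the residues -/
theorem sum_affine (g : ℕ → ℝ) (n : ℕ) (hn : 0 < n) (hg : ∀ x, g (x + n) = g x) (a b : ℕ)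
    (ha : Nat.Coprime a n) : ∑ m ∈ range n, g (b + a * m) = ∑ x ∈ range n, g x := by
  have hmod : ∀ x, g (x % n) = g x := fun x => Function.Periodic.map_mod_nat hg x
  have hinj : Set.InjOn (fun m => (b + a * m) % n) (range n : Finset ℕ) := by
    intro m hm m' hm' h
    rw [mem_coe, mem_range] at hm hm'
    have h1 : b + a * m ≡ b + a * m' [MOD n] := h
    have h2 : a * m ≡ a * m' [MOD n] := Nat.ModEq.add_left_cancel' b h1
    have h3 : m ≡ m' [MOD n] := Nat.ModEq.cancel_left_of_coprime (by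
      rw [Nat.coprime_comm] at ha
      exact ha) h2
    exact Nat.ModEq.eq_of_lt_of_lt h3 hm hm'
  have himg : (range n).image (fun m => (b + a * m) % n) = range n := by
    apply Finset.eq_of_subset_of_card_le
    · intro x hx
      rw [mem_image] at hx
      obtain ⟨m, -, rfl⟩ := hx
      exact mem_range.2 (Nat.mod_lt _ hn)
    · rw [Finset.card_image_of_injOn hinj]
  calc ∑ m ∈ range n, g (b + a * m) = ∑ m ∈ range n, g ((b + a * m) % n) :=
        sum_congr rfl fun m _ => (hmod _).symm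
    _ = ∑ x ∈ (range n).image (fun m => (b + a * m) % n), g x := by
        rw [Finset.sum_image]
        exact hinj
    _ = _ := by rw [himg]

theorem bd_per {D : Dat} (hD : AxG D) (ps : Finset ℕ) (P y : ℕ) {p : ℕ} (hp : p.Prime)
    (x j : ℕ) : bd D ps P y p (x + p ^ 2 * j) ↔ bd D ps P y p x := by
  have hT : ∀ j, (D.T p (x + p ^ 2 * j) ↔ D.T p x) := by
    intro j
    induction j with
    | zero => simp
    | succ j ih =>
      have e : x + p ^ 2 * (j + 1) = (x + p ^ 2 * j) + p ^ 2 := by ring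
      rw [e, hD.per p _ hp, ih]
  have h1 : p ∣ x + p ^ 2 * j ↔ p ∣ x :=
    Nat.dvd_add_left (Dvd.dvd.mul_right (dvd_pow_self p (by norm_num)) _)
  have h2 : p ^ 2 ∣ x + p ^ 2 * j ↔ p ^ 2 ∣ x := Nat.dvd_add_left (Dvd.intro _ rfl)
  unfold bd
  rw [h1, h2, hT]

variable {ι : Type} [Fintype ι]

/-- the sieve function -/
noncomputable def hh (D : ι → Dat) (ps : ι → Finset ℕ) (P y h : ι → ℕ) (B Pr p m : ℕ) : ℝ :=
  if ∃ i, bd (D i) (ps i) (P i) (y i) p (B + Pr * m + h i) then 1 else 0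

theorem hh01 (D : ι → Dat) (ps : ι → Finset ℕ) (P y h : ι → ℕ) (B Pr p m : ℕ) :
    hh D ps P y h B Pr p m = 0 ∨ hh D ps P y h B Pr p m = 1 := by
  unfold hh
  split_ifs <;> simp

theorem hh_per {D : ι → Dat} (hD : ∀ i, AxG (D i)) (ps : ι → Finset ℕ) (P y h : ι → ℕ)
    (B Pr : ℕ) {p : ℕ} (hp : p.Prime) (m : ℕ) :
    hh D ps P y h B Pr p (m + p ^ 2) = hh D ps P y h B Pr p m := by
  have key : ∀ i, (bd (D i) (ps i) (P i) (y i) p (B + Pr * (m + p ^ 2) + h i) ↔
      bd (D i) (ps i) (P i) (y i) p (B + Pr * m + h i)) := by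
    intro i
    have e : B + Pr * (m + p ^ 2) + h i = (B + Pr * m + h i) + p ^ 2 * Pr := by ring
    rw [e, bd_per (hD i) _ _ _ hp]
  unfold hh
  simp only [key]

theorem bd_imp {D : Dat} {ps : Finset ℕ} {P y p x : ℕ} (h : bd D ps P y p x) :
    p ∣ x ∨ D.T p x := by
  unfold bd at h
  split_ifs at h with h1
  · exact Or.inl h.1
  · exact Or.inr h.2.2

theorem ind_sum (A : ι → Prop) (hA : ∀ i j, i ≠ j → ¬ (A i ∧ A j)) :
    (if ∃ i, A i then (1 : ℝ) else 0) = ∑ i, (if A i then (1 : ℝ) else 0) := by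
  by_cases h : ∃ i, A i
  · obtain ⟨i, hi⟩ := h
    rw [if_pos ⟨i, hi⟩, Finset.sum_eq_single i, if_pos hi]
    · intro j _ hj
      rw [if_neg]
      intro hj2
      exact hA j i hj ⟨hj2, hi⟩
    · intro h
      exact absurd (mem_univ i) h
  · rw [if_neg h]
    symm
    apply Finset.sum_eq_zero
    intro i _
    rw [if_neg]
    exact fun hi => h ⟨i, hi⟩

/-- no two of the conditions can hold at the prime `p` -/
def Dis (D : ι → Dat) (h : ι → ℕ) (p : ℕ) : Prop :=
  ∀ i j, i ≠ j → ∀ x : ℕ, ¬ ((p ∣ x + h i ∨ (D i).T p (x + h i)) ∧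
    (p ∣ x + h j ∨ (D j).T p (x + h j)))

theorem mean {D : ι → Dat} (hD : ∀ i, AxG (D i)) (ps : ι → Finset ℕ) (P y h : ι → ℕ)
    (B Pr : ℕ) {p : ℕ} (hp : p.Prime) (hcop : Nat.Coprime Pr p) (hdis : Dis D h p) :
    (∑ m ∈ range (p ^ 2), hh D ps P y h B Pr p m) / (p : ℝ) ^ 2 =
      ∑ i, mu (D i) (ps i) (P i) (y i) p := by
  have h1 : ∀ m ∈ range (p ^ 2), hh D ps P y h B Pr p m =
      ∑ i, (if bd (D i) (ps i) (P i) (y i) p (B + Pr * m + h i) then (1 : ℝ) else 0) := by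
    intro m _
    unfold hh
    apply ind_sum
    rintro i j hij ⟨h1, h2⟩
    exact hdis i j hij _ ⟨bd_imp h1, bd_imp h2⟩
  rw [sum_congr rfl h1, sum_comm, sum_div]
  apply sum_congr rfl
  intro i _
  unfold mu
  congr 1
  have h2 := sum_affine (fun x => if bd (D i) (ps i) (P i) (y i) p x then (1 : ℝ) else 0)
    (p ^ 2) (pow_pos hp.pos 2) (by
      intro x
      have := bd_per (hD i) (ps i) (P i) (y i) hp x 1
      rw [mul_one] at this
      simp only [this]) Pr (B + h i) (Nat.Coprime.pow_right 2 hcop)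
  rw [← h2]
  apply sum_congr rfl
  intro m _
  have e : B + Pr * m + h i = B + h i + Pr * m := by ring
  rw [e]

/-- the conditions for a tuple of sets of primes -/
def Cond (D : ι → Dat) (E : Finset ℕ) (k z : ℕ) (h : ι → ℕ) (ps : ι → Finset ℕ) (n : ℕ) : Prop :=
  ∀ i, Pass (D i) (n + h i) ∧ (∀ p ∈ ps i, Ex (D i).c0 (n + h i) p ∧ p ∉ E) ∧
    ∀ p, Ex (D i).c0 (n + h i) p → p ∉ E → p ≤ Pf k z (ps i) → p ∈ ps i

/-- the elements of the set are sifted -/
theorem sift {D : ι → Dat} (hD : ∀ i, AxG (D i)) (E : Finset ℕ) (k z : ℕ) (h : ι → ℕ)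
    (ps : ι → Finset ℕ) (S : Finset ℕ)
    (hS : ∀ p ∈ S, p.Prime ∧ (∀ i, ¬ p ∣ (D i).c0) ∧ p ∉ E ∧ ∀ i, p ∉ ps i) (y : ι → ℕ)
    (a N Pr : ℕ) (hPr : Pr = ∏ p ∈ univ.biUnion ps, p)
    (hne : ((Ioc a (a + N)).filter (Cond D E k z h ps)).Nonempty) :
    ∃ B : ℕ, (((Ioc a (a + N)).filter (Cond D E k z h ps)).card : ℝ) ≤
      ∑ m ∈ Icc 1 (N / Pr + 1), ∏ p ∈ S,
        (1 - hh D ps (fun i => Pf k z (ps i)) y h B Pr p m) := by
  set A := (Ioc a (a + N)).filter (Cond D E k z h ps) with hA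
  set n0 := A.min' hne with hn0
  have hn0A : n0 ∈ A := A.min'_mem hne
  have hmin : ∀ n ∈ A, n0 ≤ n := fun n hn => A.min'_le n hn
  have hmem : ∀ n ∈ A, a < n ∧ n ≤ a + N ∧ Cond D E k z h ps n := by
    intro n hn
    rw [hA, mem_filter, mem_Ioc] at hn
    exact ⟨hn.1.1, hn.1.2, hn.2⟩
  have hprime : ∀ p ∈ univ.biUnion ps, p.Prime := by
    intro p hp
    rw [mem_biUnion] at hp
    obtain ⟨i, -, hi⟩ := hp
    exact (((hmem n0 hn0A).2.2 i).2.1 p hi).1.1
  have hPr0 : 0 < Pr := by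
    rw [hPr]
    exact Finset.prod_pos fun p hp => (hprime p hp).pos
  have hdvd : ∀ n ∈ A, Pr ∣ n - n0 := by
    intro n hn
    rw [hPr]
    apply Finset.prod_primes_dvd
    · intro p hp
      exact (hprime p hp).prime
    · intro p hp
      rw [mem_biUnion] at hp
      obtain ⟨i, -, hi⟩ := hp
      have h1 := (((hmem n0 hn0A).2.2 i).2.1 p hi).1.2.2.1
      have h2 := (((hmem n hn).2.2 i).2.1 p hi).1.2.2.1
      have h3 : n - n0 = (n + h i) - (n0 + h i) := by omega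
      rw [h3]
      exact Nat.dvd_sub h2 h1
  set Q : ℕ := ∏ p ∈ S, p ^ 2 with hQ
  have hQ0 : 0 < Q := Finset.prod_pos fun p hp => pow_pos (hS p hp).1.pos 2
  refine ⟨n0 + Pr * (Q - 1), ?_⟩
  set F : Finset ℕ := (Icc 1 (N / Pr + 1)).filter (fun m => ∀ p ∈ S,
    hh D ps (fun i => Pf k z (ps i)) y h (n0 + Pr * (Q - 1)) Pr p m = 0) with hF
  have hcardF : A.card ≤ F.card := by
    apply Finset.card_le_card_of_injOn (fun n => (n - n0) / Pr + 1)
    · intro n hn
      rw [mem_coe] at hn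
      obtain ⟨m, hm⟩ := hdvd n hn
      have hle := hmin n hn
      have e1 : (n - n0) / Pr + 1 = m + 1 := by
        rw [hm, Nat.mul_div_cancel_left m hPr0]
      have e2 : n = n0 + Pr * m := by omega
      simp only [e1]
      rw [mem_coe, hF, mem_filter, mem_Icc]
      refine ⟨⟨by omega, ?_⟩, ?_⟩
      · apply Nat.succ_le_succ
        rw [Nat.le_div_iff_mul_le hPr0]
        have h1 := (hmem n hn).2.1
        have h2 := (hmem n0 hn0A).1
        rw [mul_comm]
        omega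
      · intro p hp
        obtain ⟨hpp, hpc, hpE, hpps⟩ := hS p hp
        unfold hh
        rw [if_neg]
        rintro ⟨i, hi⟩
        obtain ⟨j, hj⟩ : p ^ 2 ∣ Q := Finset.dvd_prod_of_mem _ hp
        have e3 : n0 + Pr * (Q - 1) + Pr * (m + 1) + h i = (n + h i) + p ^ 2 * (Pr * j) := by
          obtain ⟨Q', hQ'⟩ : ∃ Q', Q = Q' + 1 := ⟨Q - 1, by omega⟩
          have e4 : p ^ 2 * (Pr * j) = Pr * Q := by rw [hj]; ring
          rw [e4, hQ', Nat.add_sub_cancel, e2]
          ring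
        rw [e3, bd_per (hD i) _ _ _ hpp] at hi
        obtain ⟨c1, c2, c3⟩ := (hmem n hn).2.2 i
        unfold bd at hi
        split_ifs at hi with h1
        · exact hpps i (c3 p ⟨hpp, hpc i, hi.1, hi.2⟩ hpE h1)
        · obtain ⟨-, ⟨r, hr, hch⟩, hT⟩ := hi
          have hp2 : p ≠ 2 := fun h => hpc i (h ▸ (hD i).two)
          exact c1.1 r p ((p - 1) / 2) (c2 r hr).1 hpp (hpc i) hT
            ((Pool.Agent.H951R4.OD.ch_eq_neg_one_iff r p hpp hp2).1 hch)
    · intro n hn n' hn' heq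
      rw [mem_coe] at hn hn'
      simp only at heq
      obtain ⟨m, hm⟩ := hdvd n hn
      obtain ⟨m', hm'⟩ := hdvd n' hn'
      have hle := hmin n hn
      have hle' := hmin n' hn'
      rw [hm, hm', Nat.mul_div_cancel_left m hPr0, Nat.mul_div_cancel_left m' hPr0] at heq
      have : m = m' := by omega
      rw [this] at hm
      omega
  calc (A.card : ℝ) ≤ (F.card : ℝ) := by exact_mod_cast hcardF
    _ = ∑ m ∈ Icc 1 (N / Pr + 1), (if ∀ p ∈ S,
        hh D ps (fun i => Pf k z (ps i)) y h (n0 + Pr * (Q - 1)) Pr p m = 0 then (1 : ℝ)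
          else 0) := by
        rw [hF, Finset.card_filter]
        push_cast
        rfl
    _ ≤ _ := by
        apply sum_le_sum
        intro m _
        split_ifs with h1
        · apply le_of_eq
          symm
          apply Finset.prod_eq_one
          intro p hp
          rw [h1 p hp, sub_zero]
        · apply Finset.prod_nonneg
          intro p _
          rcases hh01 D ps (fun i => Pf k z (ps i)) y h (n0 + Pr * (Q - 1)) Pr p m with h | h <;>
            rw [h] <;> norm_num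

theorem est (sv : S_SV) (mn : S_MN) (bk : S_BK) (D : ι → Dat) (hD : ∀ i, AxG (D i))
    (hβ : ∀ i, (D i).β = 0) (k : ℕ) (hk : 1 ≤ k) (δ : ℝ) (hδ0 : 0 < δ) (hδ1 : δ ≤ 1)
    (hδ : ∀ i, δ ≤ Dk (D i) k) :
    ∃ C : ℝ, 1 ≤ C ∧ ∀ z N : ℕ, 3 ≤ z →
      C * Real.log z * (1 + Real.log (Real.log z)) ≤ Real.log N →
      ∀ E : Finset ℕ, (∀ p ∈ E, p.Prime) → ∀ s : ℝ, ∑ p ∈ E, 1 / (p : ℝ) ≤ s →
      ∀ h : ι → ℕ, (∀ p : ℕ, p.Prime → p ∉ E → Dis D h p) → ∀ a : ℕ, ∀ ps : ι → Finset ℕ,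
      (∀ i, (ps i).card ≤ k ∧ ∀ p ∈ ps i, p.Prime ∧ p ≤ z) →
      (((Ioc a (a + N)).filter (Cond D E k z h ps)).card : ℝ) ≤
        C * N * (∏ i, (1 / ∏ p ∈ ps i, (p : ℝ))) *
          (Real.log z) ^ (-(Fintype.card ι * δ)) * Real.exp (C * s) := by
  set r : ℕ := Fintype.card ι with hr
  choose Cb hCb C1 hC1 hone using fun i => one mn bk (D i) (hD i) (hβ i) k hk δ hδ0 hδ1 (hδ i)
  set κm : ℝ := ∑ i, (2 * (D i).κ + 1) with hκm
  have hκi : ∀ i, 0 ≤ 2 * (D i).κ + 1 := fun i => by linarith [(hD i).κ1]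
  have hκm0 : 0 ≤ κm := sum_nonneg fun i _ => hκi i
  obtain ⟨Cs, hCs, hsieve⟩ := sv (κm + 1) (by linarith)
  set V : Finset ℕ := univ.biUnion (fun i => (D i).c0.primeFactors) with hV
  set CC : ℝ := ∑ i, C1 i with hCC
  have hCC0 : 0 ≤ CC := sum_nonneg fun i _ => hC1 i
  set G : ℝ := CC + CC * (r * k + V.card) with hG
  have hG0 : 0 ≤ G := by positivity
  set C : ℝ := 2 * Cs * Real.exp G + Cs + r * k + CC + 1 with hC
  have hC1' : 1 ≤ C := by
    have : 0 ≤ 2 * Cs * Real.exp G := by positivity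
    have : 0 ≤ (r : ℝ) * k := by positivity
    rw [hC]
    linarith
  refine ⟨C, hC1', ?_⟩
  intro z N hz hN E hE s hs h hdis a ps hps
  obtain ⟨hlz, hllz⟩ := d3_log hz
  have hz3 : (3 : ℝ) ≤ z := by exact_mod_cast hz
  have hs0 : 0 ≤ s := le_trans (sum_nonneg fun p _ => by positivity) hs
  have hprodpos : ∀ i, (0 : ℝ) < ∏ p ∈ ps i, (p : ℝ) := fun i =>
    Finset.prod_pos fun p hp => by exact_mod_cast ((hps i).2 p hp).1.pos
  have hRHS : 0 ≤ (N : ℝ) * (∏ i, (1 / ∏ p ∈ ps i, (p : ℝ))) *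
      (Real.log z) ^ (-(r * δ)) := by
    apply mul_nonneg (mul_nonneg (Nat.cast_nonneg N) (prod_nonneg fun i _ =>
      (div_pos one_pos (hprodpos i)).le)) (Real.rpow_nonneg (by linarith) _)
  rcases Finset.eq_empty_or_nonempty ((Ioc a (a + N)).filter (Cond D E k z h ps)) with he | hne
  · rw [he, card_empty, Nat.cast_zero]
    have h1 : C * N * (∏ i, (1 / ∏ p ∈ ps i, (p : ℝ))) *
          (Real.log z) ^ (-(r * δ)) * Real.exp (C * s) =
        C * ((N : ℝ) * (∏ i, (1 / ∏ p ∈ ps i, (p : ℝ))) *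
      (Real.log z) ^ (-(r * δ))) * Real.exp (C * s) := by ring
    rw [h1]
    have := Real.exp_pos (C * s)
    positivity
  -- the primes in the sets `ps i`
  set U : Finset ℕ := univ.biUnion ps with hU
  obtain ⟨n0, hn0⟩ := hne
  have hn0c : Cond D E k z h ps n0 := (mem_filter.1 hn0).2
  have hne : ((Ioc a (a + N)).filter (Cond D E k z h ps)).Nonempty := ⟨n0, hn0⟩
  have hUprime : ∀ p ∈ U, p.Prime ∧ p ≤ z := by
    intro p hp
    rw [hU, mem_biUnion] at hp
    obtain ⟨i, -, hi⟩ := hp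
    exact (hps i).2 p hi
  have hdj : Set.PairwiseDisjoint (↑(univ : Finset ι)) ps := by
    intro i _ j _ hij
    rw [Function.onFun, Finset.disjoint_left]
    intro p hi hj
    have h1 := ((hn0c i).2.1 p hi)
    have h2 := ((hn0c j).2.1 p hj)
    exact hdis p h1.1.1 h1.2 i j hij n0 ⟨Or.inl h1.1.2.2.1, Or.inl h2.1.2.2.1⟩
  set Pr : ℕ := ∏ p ∈ U, p with hPr
  have hPr0 : 0 < Pr := Finset.prod_pos fun p hp => (hUprime p hp).1.pos
  have hPrR : (0 : ℝ) < Pr := by exact_mod_cast hPr0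
  have hPr1 : (1 : ℝ) ≤ Pr := by exact_mod_cast hPr0
  have hprodeq : (∏ i, (1 / ∏ p ∈ ps i, (p : ℝ))) = 1 / (Pr : ℝ) := by
    rw [Finset.prod_div_distrib, prod_const_one]
    congr 1
    rw [hPr, hU]
    push_cast
    rw [Finset.prod_biUnion hdj]
  rw [hprodeq]
  have hUcard : U.card ≤ r * k := by
    rw [hU]
    refine Finset.card_biUnion_le.trans ?_
    calc ∑ i, (ps i).card ≤ ∑ _i : ι, k := sum_le_sum fun i _ => (hps i).1
      _ = r * k := by simp [hr]
  have hPrz : Pr ≤ z ^ (r * k) := by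
    have h1 : Pr ≤ z ^ U.card := Finset.prod_le_pow_card U (fun p => p) z fun p hp =>
      (hUprime p hp).2
    exact h1.trans (Nat.pow_le_pow_right (by omega) hUcard)
  have hlogPr : Real.log Pr ≤ (r * k : ℝ) * Real.log z := by
    have h1 : Real.log Pr ≤ Real.log ((z : ℝ) ^ (r * k)) := by
      apply Real.log_le_log hPrR
      exact_mod_cast hPrz
    rw [Real.log_pow] at h1
    push_cast at h1
    exact h1
  have hLL : Real.log z ≤ Real.log z * (1 + Real.log (Real.log z)) := by nlinarith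
  have hN1 : (Cs + r * k) * (Real.log z * (1 + Real.log (Real.log z))) ≤ Real.log N := by
    refine le_trans ?_ hN
    rw [mul_assoc]
    apply mul_le_mul_of_nonneg_right _ (by positivity)
    have : 0 ≤ 2 * Cs * Real.exp G := by positivity
    rw [hC]
    linarith
  have hrk0 : (0 : ℝ) ≤ r * k := by positivity
  have hNpos : 0 < Real.log N := by
    have : 0 < (Cs + r * k) * (Real.log z * (1 + Real.log (Real.log z))) := by positivity
    linarith
  have hN0 : (1 : ℝ) < N := by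
    by_contra hcon
    push Not at hcon
    have := Real.log_nonpos (Nat.cast_nonneg N) hcon
    linarith
  have hrkL : (r * k : ℝ) * Real.log z ≤
      (r * k : ℝ) * (Real.log z * (1 + Real.log (Real.log z))) :=
    mul_le_mul_of_nonneg_left hLL hrk0
  have hCsL : 0 ≤ Cs * (Real.log z * (1 + Real.log (Real.log z))) := by positivity
  have hPrN : (Pr : ℝ) ≤ N := by
    apply (Real.log_le_log_iff hPrR (by linarith)).1
    nlinarith
  have hdiv1 : (N : ℝ) / Pr ≤ ((N / Pr + 1 : ℕ) : ℝ) := by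
    push_cast
    have h1 : (N : ℝ) / Pr < ((N / Pr : ℕ) : ℝ) + 1 := by
      rw [div_lt_iff₀ hPrR]
      have := Nat.lt_mul_div_succ N hPr0
      rw [mul_comm]
      exact_mod_cast this
    linarith
  have hdiv2 : ((N / Pr + 1 : ℕ) : ℝ) ≤ 2 * (N / Pr) := by
    push_cast
    have h1 : ((N / Pr : ℕ) : ℝ) ≤ N / Pr := Nat.cast_div_le
    have h2 : 1 ≤ (N : ℝ) / Pr := by
      rw [le_div_iff₀ hPrR]
      linarith
    linarith
  have hlogN : Cs * Real.log z * (1 + Real.log (Real.log z)) ≤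
      Real.log ((N / Pr + 1 : ℕ) : ℝ) := by
    have h1 : Real.log ((N : ℝ) / Pr) ≤ Real.log ((N / Pr + 1 : ℕ) : ℝ) :=
      Real.log_le_log (by positivity) hdiv1
    rw [Real.log_div (by linarith) (by linarith)] at h1
    nlinarith
  -- the sieve
  set X : Finset ℕ := E ∪ U ∪ V with hX
  have hXp : ∀ p ∈ X, p.Prime := by
    intro p hp
    rw [hX, mem_union, mem_union] at hp
    rcases hp with (hp | hp) | hp
    · exact hE p hp
    · exact (hUprime p hp).1
    · rw [hV, mem_biUnion] at hp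
      obtain ⟨i, -, hi⟩ := hp
      exact Nat.prime_of_mem_primeFactors hi
  set S : Finset ℕ := (PI 0 z).filter (fun p => p ∉ X) with hS
  have hSm : ∀ p ∈ S, p.Prime ∧ p ≤ z ∧ (∀ i, ¬ p ∣ (D i).c0) ∧ p ∉ E ∧ ∀ i, p ∉ ps i := by
    intro p hp
    simp only [hS, PI, mem_filter, mem_Ioc] at hp
    obtain ⟨⟨⟨-, h1⟩, h2⟩, h3⟩ := hp
    rw [hX, mem_union, mem_union, not_or, not_or] at h3
    refine ⟨h2, h1, fun i hi => h3.2 ?_, h3.1.1, fun i hi => h3.1.2 ?_⟩
    · rw [hV, mem_biUnion]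
      exact ⟨i, mem_univ i, Nat.mem_primeFactors.2 ⟨h2, hi, (hD i).c0_pos.ne'⟩⟩
    · rw [hU, mem_biUnion]
      exact ⟨i, mem_univ i, hi⟩
  set y : ι → ℕ := fun i => ⌈Cb i * (∏ p ∈ ps i, (p : ℝ)) ^ 2⌉₊ with hy
  obtain ⟨B, hB⟩ := sift hD E k z h ps S (fun p hp => ⟨(hSm p hp).1, (hSm p hp).2.2⟩) y a N Pr
    hPr hne
  have hcop : ∀ p ∈ S, Nat.Coprime Pr p := by
    intro p hp
    rw [hPr]
    apply Nat.Coprime.prod_left
    intro q hq
    refine (Nat.coprime_primes (hUprime q hq).1 (hSm p hp).1).2 (fun hh => ?_)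
    subst hh
    rw [hU, mem_biUnion] at hq
    obtain ⟨i, -, hi⟩ := hq
    exact (hSm q hp).2.2.2.2 i hi
  have hmean : ∀ p ∈ S, (∑ m ∈ range (p ^ 2),
      hh D ps (fun i => Pf k z (ps i)) y h B Pr p m) / (p : ℝ) ^ 2 =
      ∑ i, mu (D i) (ps i) (Pf k z (ps i)) (y i) p := fun p hp =>
    mean hD ps _ y h B Pr (hSm p hp).1 (hcop p hp) (hdis p (hSm p hp).1 (hSm p hp).2.2.2.1)
  have hsv := hsieve z (N / Pr + 1) hz hlogN S
    (hh D ps (fun i => Pf k z (ps i)) y h B Pr)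
    (fun p hp => ⟨(hSm p hp).1, (hSm p hp).2.1⟩)
    (fun p _ m => hh01 D ps _ y h B Pr p m)
    (fun p hp m => hh_per hD ps _ y h B Pr (hSm p hp).1 m) (by
      intro p hp
      rw [hmean p hp]
      have h1 : ∑ i, mu (D i) (ps i) (Pf k z (ps i)) (y i) p ≤ ∑ i, (2 * (D i).κ + 1) / (p : ℝ) :=
        sum_le_sum fun i _ => mu_le mn (hD i) (ps i) _ _ (hSm p hp).1 ((hSm p hp).2.2.1 i)
      rw [← sum_div] at h1
      refine h1.trans ?_
      apply div_le_div_of_nonneg_right _ (Nat.cast_nonneg p)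
      rw [hκm]
      linarith)
  refine hB.trans (hsv.trans ?_)
  rw [sum_congr rfl hmean, sum_comm]
  have hXs : ∑ p ∈ X, 1 / (p : ℝ) ≤ s + (r * k + V.card) := by
    have h1 : ∀ T : Finset ℕ, (∀ p ∈ T, p.Prime) → ∑ p ∈ T, 1 / (p : ℝ) ≤ T.card := by
      intro T hT
      calc ∑ p ∈ T, 1 / (p : ℝ) ≤ ∑ _p ∈ T, (1 : ℝ) := by
            apply sum_le_sum
            intro p hp
            have : (1 : ℝ) ≤ p := by exact_mod_cast (hT p hp).one_lt.le
            rw [div_le_one (by linarith)]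
            exact this
        _ = T.card := by simp
    have hnn : ∀ p : ℕ, 0 ≤ 1 / (p : ℝ) := fun p => by positivity
    have h2 : ∑ p ∈ X, 1 / (p : ℝ) ≤ ∑ p ∈ E, 1 / (p : ℝ) + ∑ p ∈ U, 1 / (p : ℝ) +
        ∑ p ∈ V, 1 / (p : ℝ) := by
      rw [hX]
      have h3 := Finset.sum_union_inter (s₁ := E ∪ U) (s₂ := V) (f := fun p : ℕ => 1 / (p : ℝ))
      have h4 := Finset.sum_union_inter (s₁ := E) (s₂ := U) (f := fun p : ℕ => 1 / (p : ℝ))
      have h5 : 0 ≤ ∑ p ∈ (E ∪ U) ∩ V, 1 / (p : ℝ) := sum_nonneg fun p _ => hnn p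
      have h6 : 0 ≤ ∑ p ∈ E ∩ U, 1 / (p : ℝ) := sum_nonneg fun p _ => hnn p
      linarith
    have h3 := h1 U (fun p hp => (hUprime p hp).1)
    have h4 := h1 V (fun p hp => hXp p (by
      rw [hX, mem_union]
      exact Or.inr hp))
    have h5 : (U.card : ℝ) ≤ r * k := by exact_mod_cast hUcard
    linarith
  have hlow : (r * δ) * Real.log (Real.log z) - G - CC * s ≤
      ∑ i, ∑ p ∈ S, mu (D i) (ps i) (Pf k z (ps i)) (y i) p := by
    have h1 : ∀ i ∈ (univ : Finset ι), δ * Real.log (Real.log z) - C1 i -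
        C1 i * (s + (r * k + V.card)) ≤
        ∑ p ∈ S, mu (D i) (ps i) (Pf k z (ps i)) (y i) p := by
      intro i _
      have h2 := hone i z hz (ps i) (hps i).1 (hps i).2 X hXp (by
        intro p hp
        rw [hX, mem_union, mem_union]
        refine Or.inl (Or.inr ?_)
        rw [hU, mem_biUnion]
        exact ⟨i, mem_univ i, hp⟩) (by
        intro p hp
        rw [hX, mem_union]
        refine Or.inr ?_
        rw [hV, mem_biUnion]
        exact ⟨i, mem_univ i, hp⟩)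
      have h3 := mul_le_mul_of_nonneg_left hXs (hC1 i)
      refine le_trans ?_ h2
      linarith
    have h2 := sum_le_sum h1
    refine le_trans (le_of_eq ?_) h2
    rw [sum_sub_distrib, sum_sub_distrib, sum_const, card_univ, nsmul_eq_mul, ← sum_mul, ← hCC,
      hG]
    ring
  have hexpo : Real.exp (-∑ i, ∑ p ∈ S, mu (D i) (ps i) (Pf k z (ps i)) (y i) p) ≤
      Real.exp G * (Real.log z) ^ (-(r * δ)) * Real.exp (C * s) := by
    rw [Real.rpow_def_of_pos (by linarith), ← Real.exp_add, ← Real.exp_add]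
    apply Real.exp_le_exp.2
    have h1 : CC * s ≤ C * s := by
      apply mul_le_mul_of_nonneg_right _ hs0
      have : 0 ≤ 2 * Cs * Real.exp G := by positivity
      rw [hC]
      linarith
    linarith
  have hrp : 0 ≤ (Real.log z) ^ (-(r * δ)) := Real.rpow_nonneg (by linarith) _
  have hexs := (Real.exp_pos (C * s)).le
  have hNPr : 0 ≤ (N : ℝ) / Pr := by positivity
  calc Cs * ((N / Pr + 1 : ℕ) : ℝ) *
        Real.exp (-∑ i, ∑ p ∈ S, mu (D i) (ps i) (Pf k z (ps i)) (y i) p)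
      ≤ Cs * (2 * (N / Pr)) * (Real.exp G * (Real.log z) ^ (-(r * δ)) * Real.exp (C * s)) := by
        gcongr
    _ = (2 * Cs * Real.exp G) * ((N / Pr) * (Real.log z) ^ (-(r * δ)) * Real.exp (C * s)) := by
        ring
    _ ≤ C * ((N / Pr) * (Real.log z) ^ (-(r * δ)) * Real.exp (C * s)) := by
        apply mul_le_mul_of_nonneg_right _ (by positivity)
        rw [hC]
        linarith
    _ = _ := by ring

end Pool.Agent.U671.BT
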